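import Mathlib

/-! The Edmonds-Johnson theorem on joins and cuts, in weighted form, by a chain version of
the argument of Sebo for the min-max theorem of Seymour. -/

set_option linter.unusedSectionVars false

namespace Pool.Agent.P.MP_8fd115_co

open Finset

variable {V E : Type*} [Fintype V] [DecidableEq V] [Fintype E] [DecidableEq E]

def cut (s t : E → V) (S : Finset V) : Finset E := univ.filter fun e => ¬ (s e ∈ S ↔ t e ∈ S)

def ind (a : V) : V → ZMod 2 := fun v => if a = v then 1 else 0

def bd (s t : E → V) (g : E → ZMod 2) : V → ZMod 2 := fun v =>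
  ∑ e, g e * (ind (s e) v + ind (t e) v)

def cost (c : E → ℕ) (g : E → ZMod 2) : ℕ := ∑ e, c e * (g e).val

def Feas (s t : E → V) (τ : V → ZMod 2) (x : E → ℝ) : Prop :=
  ∀ S : Finset V, ∑ v ∈ S, τ v = 1 → 1 ≤ ∑ e ∈ cut s t S, x e

def push (f : V → V) (τ : V → ZMod 2) (w : V) : ZMod 2 := ∑ v ∈ univ.filter fun v => f v = w, τ v

lemma z2 (a : ZMod 2) : a = 0 ∨ a = 1 := by revert a; decide

lemma z2add (a : ZMod 2) : a + a = 0 := by revert a; decide

omit [Fintype V] [DecidableEq V] in
lemma z2fun (g : V → ZMod 2) : g + g = 0 := by ext v; exact z2add _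

omit [Fintype V] in
lemma mem_cut {s t : E → V} {S : Finset V} {e : E} : e ∈ cut s t S ↔ ¬ (s e ∈ S ↔ t e ∈ S) := by
  simp [cut]

omit [Fintype V] in
lemma bd_add (s t : E → V) (g h : E → ZMod 2) : bd s t (g + h) = bd s t g + bd s t h := by
  ext v; simp [bd, add_mul, sum_add_distrib]

omit [Fintype V] in
lemma bd_single (s t : E → V) (e : E) (r : ZMod 2) :
    bd s t (Pi.single e r) = fun v => r * (ind (s e) v + ind (t e) v) := by
  ext v; simp only [bd]
  rw [sum_eq_single e]
  · simp
  · intro b _ hb; simp [hb]
  · simp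

omit [Fintype V] in
lemma bd_single_one (s t : E → V) (e : E) :
    bd s t (Pi.single e 1) = ind (s e) + ind (t e) := by
  rw [bd_single]; ext v; simp

omit [Fintype V] in
lemma sum_ind (a : V) (S : Finset V) : ∑ v ∈ S, ind a v = if a ∈ S then 1 else 0 := by
  simp [ind]

omit [Fintype V] in
lemma sum_bd (s t : E → V) (g : E → ZMod 2) (S : Finset V) :
    ∑ v ∈ S, bd s t g v = ∑ e ∈ cut s t S, g e := by
  unfold bd cut
  rw [sum_comm, sum_filter]
  refine sum_congr rfl fun e _ => ?_
  rw [← mul_sum, sum_add_distrib, sum_ind, sum_ind]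
  by_cases h1 : s e ∈ S <;> by_cases h2 : t e ∈ S <;> simp [h1, h2, z2add]

lemma cost_parity {s t : E → V} {c : E → ℕ} {π : V → ZMod 2}
    (hπ : ∀ e, (c e : ZMod 2) = π (s e) + π (t e)) (g : E → ZMod 2) :
    (cost c g : ZMod 2) = ∑ v, π v * bd s t g v := by
  unfold cost bd
  simp only [mul_sum]
  rw [sum_comm]
  push_cast
  refine sum_congr rfl fun e _ => ?_
  simp only [ZMod.natCast_val, ZMod.cast_id', id, hπ, ind, mul_add, sum_add_distrib, mul_ite, mul_one,
    mul_zero, sum_ite_eq, mem_univ, if_true]
  ring

lemma cost_remove (c : E → ℕ) {g : E → ZMod 2} {e : E} (he : g e = 1) :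
    cost c (g + Pi.single e 1) + c e = cost c g := by
  unfold cost
  rw [← add_sum_erase _ _ (mem_univ e), ← add_sum_erase _ (fun e => c e * (g e).val) (mem_univ e)]
  have : ∑ x ∈ univ.erase e, c x * ((g + Pi.single e 1 : E → ZMod 2) x).val
      = ∑ x ∈ univ.erase e, c x * (g x).val :=
    sum_congr rfl fun x hx => by simp [(mem_erase.1 hx).1]
  rw [this]
  simp [he, z2add, ZMod.val_one]
  ring

lemma Feas.push {s t : E → V} {τ : V → ZMod 2} {x : E → ℝ} (h : Feas s t τ x) (f : V → V) :
    Feas (f ∘ s) (f ∘ t) (push f τ) x := by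
  intro S hS
  have h1 : cut (f ∘ s) (f ∘ t) S = cut s t (univ.filter fun v => f v ∈ S) := by
    ext e; simp [mem_cut]
  rw [h1]
  apply h
  rw [← hS]
  unfold Pool.Agent.P.MP_8fd115_co.push
  rw [← sum_fiberwise_of_maps_to (g := f) (t := S) (s := univ.filter fun v => f v ∈ S) (by simp)]
  refine sum_congr rfl fun w hw => sum_congr ?_ fun _ _ => rfl
  ext v; simp only [mem_filter, mem_univ, true_and]
  constructor
  · exact fun h => h.2
  · exact fun h => ⟨h ▸ hw, h⟩

lemma bd_comp (s t : E → V) (f : V → V) (g : E → ZMod 2) :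
    bd (f ∘ s) (f ∘ t) g = push f (bd s t g) := by
  ext w
  unfold push
  rw [sum_bd]
  have := sum_bd (f ∘ s) (f ∘ t) g {w}
  rw [sum_singleton] at this
  rw [this]
  refine sum_congr ?_ fun _ _ => rfl
  ext e; simp [mem_cut]

/-- lifting a join through the contraction of an edge -/
lemma lift_edge {s t : E → V} {τ : V → ZMod 2} {e₀ : E} (hne : s e₀ ≠ t e₀) {g : E → ZMod 2}
    (hg : bd ((fun v => if v = t e₀ then s e₀ else v) ∘ s) ((fun v => if v = t e₀ then s e₀ else v) ∘ t) g
      = push (fun v => if v = t e₀ then s e₀ else v) τ) :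
    ∃ r : ZMod 2, bd s t (g + Pi.single e₀ r) = τ := by
  rw [bd_comp] at hg
  refine ⟨bd s t g (s e₀) + τ (s e₀), ?_⟩
  rw [bd_add, bd_single]
  ext v
  have h1 := congrFun hg (s e₀)
  have h2 := congrFun hg v
  unfold push at h1 h2
  have e1 : (univ.filter fun w => (if w = t e₀ then s e₀ else w) = s e₀) = {s e₀, t e₀} := by
    ext w; by_cases hw : w = t e₀ <;> simp [hw]
  rw [e1, sum_pair hne, sum_pair hne] at h1
  simp only [Pi.add_apply, ind]
  by_cases a1 : s e₀ = v
  · subst a1
    simp only [if_true, hne.symm, if_false]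
    generalize bd s t g (s e₀) = a; generalize τ (s e₀) = b
    revert a b; decide
  · by_cases a2 : t e₀ = v
    · subst a2
      simp only [if_true, hne, if_false]
      revert h1
      generalize bd s t g (s e₀) = a; generalize τ (s e₀) = b
      generalize bd s t g (t e₀) = a'; generalize τ (t e₀) = b'
      revert a b a' b'; decide
    · have e2 : (univ.filter fun w => (if w = t e₀ then s e₀ else w) = v) = {v} := by
        ext w
        by_cases hw : w = t e₀
        · simp [hw, a1, a2]
        · simp [hw]
      rw [e2, sum_singleton, sum_singleton] at h2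
      simp [a1, a2, h2]

/-- a chain with two odd vertices and two edges at one of them holds a cycle with exactly two
edges at that vertex -/
lemma two_edges {s t : E → V} {a b : V} {D : E → ZMod 2} (hD : bd s t D = ind a + ind b)
    {e₁ e₂ : E} (hne : e₁ ≠ e₂) (h1 : e₁ ∈ cut s t {b}) (h2 : e₂ ∈ cut s t {b})
    (d1 : D e₁ = 1) (d2 : D e₂ = 1) :
    ∃ K : E → ZMod 2, bd s t K = 0 ∧ (∀ e, K e = 1 → D e = 1) ∧
      ∑ e ∈ cut s t {b}, (K e).val = 2 := by
  classical
  let u : E → V := fun e => if s e = b then t e else s e
  have hu : ∀ e ∈ cut s t {b}, u e ≠ b ∧ ind (s e) + ind (t e) = ind b + ind (u e) := by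
    intro e he
    simp only [mem_cut, mem_singleton] at he
    by_cases h : s e = b
    · have : t e ≠ b := fun h' => he (by simp [h, h'])
      simp [u, h, this]
    · have : t e = b := by by_contra h'; exact he (by simp [h, h'])
      simp [u, h, this, add_comm]
  let R : V → V → Prop := fun p q => ∃ P : E → ZMod 2,
    (∀ e, P e = 1 → D e = 1 ∧ e ∉ cut s t {b}) ∧ bd s t P = ind p + ind q
  have Radd : ∀ {P Q : E → ZMod 2}, (∀ e, P e = 1 → D e = 1 ∧ e ∉ cut s t {b}) →
      (∀ e, Q e = 1 → D e = 1 ∧ e ∉ cut s t {b}) →
      (∀ e, (P + Q) e = 1 → D e = 1 ∧ e ∉ cut s t {b}) := by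
    intro P Q hP hQ e he
    rcases z2 (P e) with h | h
    · exact hQ e (by simpa [h] using he)
    · exact hP e h
  have Rsingle : ∀ e, D e = 1 → e ∉ cut s t {b} →
      (∀ e', (Pi.single e 1 : E → ZMod 2) e' = 1 → D e' = 1 ∧ e' ∉ cut s t {b}) := by
    intro e h h' e' he'
    have : e' = e := by by_contra hh; simp [hh] at he'
    subst this; exact ⟨h, h'⟩
  have key : ∃ e e', e ≠ e' ∧ e ∈ cut s t {b} ∧ e' ∈ cut s t {b} ∧ D e = 1 ∧ D e' = 1 ∧
      R (u e) (u e') := by
    by_contra hcon
    push Not at hcon
    have toa : ∀ e ∈ cut s t {b}, D e = 1 → R (u e) a := by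
      intro e he de
      let Q : Finset V := univ.filter fun v => R (u e) v
      have hb : b ∉ Q := by
        simp only [Q, mem_filter, mem_univ, true_and]
        rintro ⟨P, hP, hbd⟩
        have := sum_bd s t P {b}
        rw [sum_singleton, hbd, sum_eq_zero] at this
        · simp [ind, (hu e he).1] at this
        · intro e' he'
          rcases z2 (P e') with h | h
          · exact h
          · exact absurd he' (hP e' h).2
      have hmem : ∀ e' ∈ cut s t {b}, (e' ∈ cut s t Q ↔ u e' ∈ Q) := by
        intro e' he'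
        simp only [mem_cut, mem_singleton] at he'
        rw [mem_cut]
        by_cases h : s e' = b
        · simp [u, h, hb]
        · have : t e' = b := by by_contra h'; exact he' (by simp [h, h'])
          simp [u, h, this, hb]
      have hs := sum_bd s t D Q
      rw [sum_eq_single e] at hs
      · rw [hD] at hs
        simp only [Pi.add_apply, sum_add_distrib, sum_ind, hb, if_false, add_zero, de] at hs
        have : a ∈ Q := by by_contra h; simp [h] at hs
        simpa [Q] using this
      · intro e' he' hne'
        rcases z2 (D e') with h | h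
        · exact h
        · exfalso
          by_cases hc : e' ∈ cut s t {b}
          · have := (hmem e' hc).1 he'
            exact hcon e e' (Ne.symm hne') he hc de h (by simpa [Q] using this)
          · rw [mem_cut] at he'
            apply he'
            simp only [Q, mem_filter, mem_univ, true_and]
            constructor
            · rintro ⟨P, hP, hbd⟩
              refine ⟨P + Pi.single e' 1, Radd hP (Rsingle e' h hc), ?_⟩
              rw [bd_add, hbd, bd_single_one, add_assoc, ← add_assoc (ind (s e')), z2fun, zero_add]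
            · rintro ⟨P, hP, hbd⟩
              refine ⟨P + Pi.single e' 1, Radd hP (Rsingle e' h hc), ?_⟩
              rw [bd_add, hbd, bd_single_one, add_assoc, add_comm (ind (s e')),
                ← add_assoc (ind (t e')), z2fun, zero_add]
      · intro h
        exfalso; apply h
        rw [hmem e he]
        simp only [Q, mem_filter, mem_univ, true_and]
        refine ⟨0, by simp, ?_⟩
        rw [z2fun]; ext v; simp [bd]
    obtain ⟨P, hP, hbP⟩ := toa e₁ h1 d1
    obtain ⟨Q, hQ, hbQ⟩ := toa e₂ h2 d2
    refine hcon e₁ e₂ hne h1 h2 d1 d2 ⟨P + Q, Radd hP hQ, ?_⟩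
    rw [bd_add, hbP, hbQ, add_assoc, add_comm (ind (u e₂)), ← add_assoc (ind a), z2fun, zero_add]
  obtain ⟨e, e', hee, he, he', de, de', P, hP, hbd⟩ := key
  have P0 : ∀ f ∈ cut s t {b}, P f = 0 := fun f hf => by
    rcases z2 (P f) with h | h
    · exact h
    · exact absurd hf (hP f h).2
  refine ⟨P + Pi.single e 1 + Pi.single e' 1, ?_, ?_, ?_⟩
  · rw [bd_add, bd_add, hbd, bd_single_one, bd_single_one, (hu e he).2, (hu e' he').2]
    ext v
    simp only [Pi.add_apply, Pi.zero_apply]
    generalize ind (u e) v = p; generalize ind (u e') v = q; generalize ind b v = r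
    revert p q r; decide
  · intro f hf
    by_cases a1 : f = e
    · rw [a1]; exact de
    · by_cases a2 : f = e'
      · rw [a2]; exact de'
      · exact (hP f (by simpa [a1, a2] using hf)).1
  · rw [← sum_subset (s₁ := {e, e'})]
    · rw [sum_pair hee]
      simp [P0 e he, P0 e' he', hee, hee.symm, ZMod.val_one]
    · intro f hf
      simp only [mem_insert, mem_singleton] at hf
      rcases hf with rfl | rfl <;> assumption
    · intro f hf hf'
      simp only [mem_insert, mem_singleton, not_or] at hf'
      simp [P0 f hf, hf'.1, hf'.2]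

omit [Fintype V] [DecidableEq V] in
lemma cost_exchange (c : E → ℕ) {g G K : E → ZMod 2} (hK : ∀ e, K e = 1 → (g + G) e = 1) :
    cost c (g + K) + cost c (G + K) = cost c g + cost c G := by
  unfold cost
  rw [← sum_add_distrib, ← sum_add_distrib]
  refine sum_congr rfl fun e _ => ?_
  rw [← mul_add, ← mul_add]
  congr 1
  have := hK e
  simp only [Pi.add_apply] at this ⊢
  revert this
  generalize g e = a; generalize G e = b; generalize K e = k
  revert a b k; decide

/-- the main step: a vertex whose star meets every join `g` in at most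
`cost g - min + 1` edges -/
lemma exists_star {s t : E → V} {τ : V → ZMod 2} {c : E → ℕ} {π : V → ZMod 2}
    (hπ : ∀ e, (c e : ZMod 2) = π (s e) + π (t e)) (hc : ∀ e, s e ≠ t e → 1 ≤ c e)
    {J : E → ZMod 2} (hJ : bd s t J = τ) (hmin : ∀ g, bd s t g = τ → cost c J ≤ cost c g)
    (hpos : 0 < cost c J) :
    ∃ b, τ b = 1 ∧ ∀ g, bd s t g = τ →
      cost c J + ∑ e ∈ cut s t {b}, (g e).val ≤ cost c g + 1 := by
  classical
  obtain ⟨e₀, he₀, hc₀⟩ : ∃ e, J e = 1 ∧ 0 < c e := by
    by_contra h
    push Not at h
    have : cost c J = 0 := sum_eq_zero fun e _ => by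
      rcases z2 (J e) with h' | h'
      · simp [h']
      · have := h e h'; simp [show c e = 0 by omega]
    omega
  let A : Finset (E → ZMod 2) := univ.filter fun G => ∃ a b, bd s t G = τ + ind a + ind b
  have hA0 : J + Pi.single e₀ 1 ∈ A := by
    simp only [A, mem_filter, mem_univ, true_and]
    exact ⟨s e₀, t e₀, by rw [bd_add, hJ, bd_single_one, add_assoc]⟩
  obtain ⟨G, hG, hGmin⟩ := exists_min_image A (cost c) ⟨_, hA0⟩
  simp only [A, mem_filter, mem_univ, true_and] at hG
  obtain ⟨a, b, hG⟩ := hG
  have hlt : cost c G < cost c J := by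
    have := hGmin _ hA0
    have := cost_remove c he₀
    omega
  have hab : a ≠ b := by
    rintro rfl
    have := hmin G (by rw [hG, add_assoc, z2fun, add_zero])
    omega
  have claim1 : ∀ H, bd s t H = τ + ind a + ind b → ∀ e ∈ cut s t {b}, H e = 1 →
      cost c G + 1 ≤ cost c H := by
    intro H hH e he hHe
    simp only [mem_cut, mem_singleton] at he
    have hne : s e ≠ t e := fun h => he (by rw [h])
    have h1 := hc e hne
    have h2 := cost_remove c hHe
    have h3 : H + Pi.single e 1 ∈ A := by
      simp only [A, mem_filter, mem_univ, true_and]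
      by_cases h : s e = b
      · refine ⟨a, t e, ?_⟩
        rw [bd_add, hH, bd_single_one, h, add_assoc, ← add_assoc (ind b), z2fun, zero_add]
      · have h' : t e = b := by by_contra h'; exact he (by simp [h, h'])
        refine ⟨a, s e, ?_⟩
        rw [bd_add, hH, bd_single_one, h', add_assoc, add_comm (ind (s e)), ← add_assoc (ind b),
          z2fun, zero_add]
    have := hGmin _ h3
    omega
  have G0 : ∀ e ∈ cut s t {b}, G e = 0 := fun e he => by
    rcases z2 (G e) with h | h
    · exact h
    · have := claim1 G hG e he h; omega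
  refine ⟨b, ?_, ?_⟩
  · have := sum_bd s t G {b}
    rw [sum_singleton, sum_eq_zero G0, hG] at this
    simp only [Pi.add_apply, ind, hab, if_false, if_true, add_zero] at this
    revert this; generalize τ b = r; revert r; decide
  · intro g
    induction hk : ∑ e ∈ cut s t {b}, (g e).val using Nat.strong_induction_on generalizing g with
    | _ k ih =>
    intro hg
    by_cases hk1 : k ≤ 1
    · have := hmin g hg; omega
    · have : 1 < ((cut s t {b}).filter fun e => g e = 1).card := by
        rw [card_filter]
        have : ∑ e ∈ cut s t {b}, (if g e = 1 then 1 else 0) = ∑ e ∈ cut s t {b}, (g e).val :=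
          sum_congr rfl fun e _ => by
            rcases z2 (g e) with h | h <;> simp [h, ZMod.val_one]
        omega
      obtain ⟨e₁, h1, e₂, h2, hne⟩ := one_lt_card.1 this
      rw [mem_filter] at h1 h2
      have hD : bd s t (g + G) = ind a + ind b := by
        rw [bd_add, hg, hG, add_assoc, ← add_assoc τ, z2fun, zero_add]
      obtain ⟨K, hK, hKD, hK2⟩ := two_edges hD hne h1.1 h2.1 (by simp [h1.2, G0 _ h1.1])
        (by simp [h2.2, G0 _ h2.1])
      have hex := cost_exchange c hKD
      have hsum : ∑ e ∈ cut s t {b}, ((g + K) e).val + ∑ e ∈ cut s t {b}, (K e).val = k := by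
        rw [← hk, ← sum_add_distrib]
        refine sum_congr rfl fun e he => ?_
        have := hKD e
        simp only [Pi.add_apply, G0 e he, add_zero] at this ⊢
        revert this; generalize g e = p; generalize K e = q; revert p q; decide
      have hih := ih _ (by omega) (g + K) rfl (by rw [bd_add, hK, hg, add_zero])
      have hGK : bd s t (G + K) = τ + ind a + ind b := by rw [bd_add, hK, hG, add_zero]
      obtain ⟨e, he, hKe⟩ : ∃ e ∈ cut s t {b}, K e = 1 := by
        by_contra h
        push Not at h
        rw [sum_eq_zero] at hK2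
        · omega
        · intro e he
          rcases z2 (K e) with h' | h'
          · simp [h']
          · exact absurd h' (h e he)
      have h3 := claim1 _ hGK e he (by simp [G0 e he, hKe])
      have h4 : (cost c (G + K) : ZMod 2) = cost c G := by
        rw [cost_parity hπ, cost_parity hπ, hGK, hG]
      rw [ZMod.natCast_eq_natCast_iff'] at h4
      omega

theorem tjoin_aux (x : E → ℝ) (hx : ∀ e, 0 ≤ x e) (n : ℕ) :
    ∀ (s t : E → V) (τ : V → ZMod 2) (c : E → ℕ) (π : V → ZMod 2),
      ∑ e, c e + (univ.filter fun e => s e ≠ t e).card = n →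
      (∀ e, (c e : ZMod 2) = π (s e) + π (t e)) → Feas s t τ x →
      ∃ g, bd s t g = τ ∧ (cost c g : ℝ) ≤ ∑ e, c e * x e := by
  classical
  induction n using Nat.strong_induction_on with
  | _ n ih =>
  intro s t τ c π hn hπ hF
  by_cases hz : ∃ e₀, s e₀ ≠ t e₀ ∧ c e₀ = 0
  · obtain ⟨e₀, hne, hc0⟩ := hz
    have hpi : π (s e₀) = π (t e₀) := by
      have := hπ e₀
      rw [hc0] at this
      revert this; generalize π (s e₀) = p; generalize π (t e₀) = q; revert p q; decide
    have hf : ∀ v, π (if v = t e₀ then s e₀ else v) = π v := fun v => by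
      by_cases h : v = t e₀ <;> simp [h, hpi]
    obtain ⟨g, hg, hcost⟩ := ih _ (by
        rw [← hn]
        refine Nat.add_lt_add_left (card_lt_card ⟨fun e he => ?_, fun h => ?_⟩) _
        · simp only [mem_filter, mem_univ, true_and, Function.comp] at he ⊢
          exact fun h => he (by rw [h])
        · have := h (mem_filter.2 ⟨mem_univ e₀, hne⟩)
          simp at this)
      ((fun v => if v = t e₀ then s e₀ else v) ∘ s) ((fun v => if v = t e₀ then s e₀ else v) ∘ t)
      _ c π rfl (fun e => by simp only [Function.comp, hf, hπ]) (hF.push _)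
    obtain ⟨r, hr⟩ := lift_edge hne hg
    refine ⟨_, hr, ?_⟩
    have : cost c (g + Pi.single e₀ r) = cost c g := sum_congr rfl fun e _ => by
      by_cases h : e = e₀
      · simp [h, hc0]
      · simp [h]
    rwa [this]
  · push Not at hz
    have hc : ∀ e, s e ≠ t e → 1 ≤ c e := fun e he => Nat.one_le_iff_ne_zero.2 (hz e he)
    have hnn : 0 ≤ ∑ e, c e * x e := sum_nonneg fun e _ => mul_nonneg (Nat.cast_nonneg _) (hx e)
    by_cases h0 : ∑ e, c e = 0
    · refine ⟨0, ?_, by simpa [cost] using hnn⟩
      ext v
      rcases z2 (τ v) with h | h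
      · simp [bd, h]
      · exfalso
        have := hF {v} (by simpa using h)
        rw [sum_eq_zero] at this
        · linarith
        · intro e he
          simp only [mem_cut, mem_singleton] at he
          have h1 := hc e fun h => he (by rw [h])
          have := single_le_sum (f := c) (fun _ _ => Nat.zero_le _) (mem_univ e)
          omega
    · obtain ⟨g₀, hg₀, -⟩ := ih _ (by rw [← hn]; simp; omega) s t τ (fun _ => 0) (fun _ => 0) rfl
        (by simp) hF
      obtain ⟨J, hJ, hmin⟩ := exists_min_image (univ.filter fun g => bd s t g = τ) (cost c)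
        ⟨g₀, by simpa using hg₀⟩
      simp only [mem_filter, mem_univ, true_and] at hJ hmin
      refine ⟨J, hJ, ?_⟩
      rcases Nat.eq_zero_or_pos (cost c J) with h | h
      · rw [h]; simpa using hnn
      obtain ⟨b, hb, hstar⟩ := exists_star hπ hc hJ hmin h
      have hx1 := hF {b} (by simpa using hb)
      let c' : E → ℕ := fun e => if e ∈ cut s t {b} then c e - 1 else c e
      have hc' : ∀ e, c e = c' e + if e ∈ cut s t {b} then 1 else 0 := fun e => by
        by_cases he : e ∈ cut s t {b}
        · simp only [c', he, if_true]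
          simp only [mem_cut, mem_singleton] at he
          have h1 := hc e fun h => he (by rw [h])
          omega
        · simp [c', he]
      have hne : (cut s t {b}).Nonempty := by
        by_contra h
        rw [not_nonempty_iff_eq_empty] at h
        rw [h] at hx1; simp at hx1; linarith
      obtain ⟨g, hg, hcost⟩ := ih _ (by
          rw [← hn]
          refine Nat.add_lt_add_right ?_ _
          obtain ⟨e, he⟩ := hne
          refine sum_lt_sum (fun e _ => by have := hc' e; omega) ⟨e, mem_univ _, ?_⟩
          have := hc' e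
          simp only [he, if_true] at this
          omega) s t τ c' (π + ind b) rfl (fun e => by
          have h1 := hπ e
          rw [hc' e] at h1
          push_cast at h1
          simp only [mem_cut, mem_singleton] at h1
          simp only [Pi.add_apply, ind, eq_comm (a := b)]
          revert h1
          generalize (c' e : ZMod 2) = r; generalize π (s e) = p; generalize π (t e) = q
          by_cases a1 : s e = b <;> by_cases a2 : t e = b <;> simp only [a1, a2] <;>
            revert r p q <;> decide) hF
      have h1 := hstar g hg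
      have h2 : cost c g = cost c' g + ∑ e ∈ cut s t {b}, (g e).val := by
        unfold cost
        rw [← Fintype.sum_ite_mem (cut s t {b}), ← sum_add_distrib]
        refine sum_congr rfl fun e _ => ?_
        rw [hc' e]; split_ifs <;> ring
      have h3 : ∑ e, c e * x e = ∑ e, c' e * x e + ∑ e ∈ cut s t {b}, x e := by
        rw [← Fintype.sum_ite_mem (cut s t {b}), ← sum_add_distrib]
        refine sum_congr rfl fun e _ => ?_
        rw [hc' e]; push_cast; split_ifs <;> ring
      have h4 : (cost c J : ℝ) ≤ cost c' g + 1 := by exact_mod_cast (by omega)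
      linarith

/-- Edmonds-Johnson: a point of the cut-covering polyhedron dominates, in cost, some join -/
theorem tjoin {s t : E → V} {τ : V → ZMod 2} {x : E → ℝ} (hx : ∀ e, 0 ≤ x e) (hF : Feas s t τ x)
    (c : E → ℕ) : ∃ g, bd s t g = τ ∧ (cost c g : ℝ) ≤ ∑ e, c e * x e := by
  obtain ⟨g, hg, h⟩ := tjoin_aux x hx _ s t τ (fun e => 2 * c e) 0 rfl
    (fun e => by push_cast; simp [show (2 : ZMod 2) = 0 from rfl]) hF
  refine ⟨g, hg, ?_⟩
  have h1 : cost (fun e => 2 * c e) g = 2 * cost c g := by
    simp [cost, mul_sum, mul_assoc]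
  have h2 : ∑ e, ((2 * c e : ℕ) : ℝ) * x e = 2 * ∑ e, c e * x e := by
    simp [mul_sum, mul_assoc]
  rw [h1, h2] at h
  push_cast at h
  linarith

end Pool.Agent.P.MP_8fd115_co
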