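import Pool.Agent.P.MP_8fd115_co.Rule

/-! Every odd cycle of a triangle-free hexagonal graph has weight at least one. -/

namespace Pool.Agent.P.MP_8fd115_co

open Finset

lemma sum_shift {f : ℕ → ℕ} {n : ℕ} (hf : ∀ i, f (i + n) = f i) (s : ℕ) :
    ∑ k ∈ range n, f (s + k) = ∑ k ∈ range n, f k := by
  induction s with
  | zero => simp
  | succ s ih =>
    have h1 := sum_range_succ (fun k => f (s + k)) n
    have h2 := sum_range_succ' (fun k => f (s + k)) n
    have h3 := hf s
    have h4 : ∑ k ∈ range n, f (s + 1 + k) = ∑ k ∈ range n, f (s + (k + 1)) :=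
      sum_congr rfl fun k _ => by congr 1; omega
    simp only [add_zero] at h1 h2
    omega

lemma D_inj : ∀ a b : Fin 6, D a = D b → a = b := by decide

def rho (k : Fin 6) (v : ℤ × ℤ) : ℤ × ℤ := v.1 • D k + v.2 • D (k + 1)

lemma rho_add (k : Fin 6) (v w : ℤ × ℤ) : rho k (v + w) = rho k v + rho k w := by
  simp only [rho, Prod.fst_add, Prod.snd_add, add_smul]; abel

lemma rho_Dn : ∀ k a : Fin 6, rho k (Dn (a - k).val) = D a := by decide

lemma rho_Dn' : ∀ k : Fin 6, ∀ d < 6, ∃ a : Fin 6, rho k (Dn d) = D a ∧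
    rho k (Dn ((d + 1) % 6)) = D (a + 1) := by decide

lemma rho_zero (k : Fin 6) (v : ℤ × ℤ) (h : rho k v = 0) : v = (0, 0) := by
  obtain ⟨a, b⟩ := v
  fin_cases k <;> simp [rho, D, Prod.ext_iff] at h ⊢ <;> omega

lemma turn_val : ∀ a b : Fin 6, ∀ e < 3, (a + tdF e - b).val = ((a - b).val + tdk e) % 6 := by decide

lemma turn_par : ∀ a : Fin 6, ∀ e < 3, e ≠ 0 → (a + tdF e).val % 2 = (a.val + 1) % 2 := by decide

lemma feat_lt (a0 : Bool) (b c : ℕ) (zp : Bool) : feat a0 b c zp < 5 := by
  unfold feat; cases a0 <;> cases zp <;> split_ifs <;> simp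

lemma feat_feat (a0 : Bool) (b c d : ℕ) (zp z : Bool) :
    feat (decide (feat a0 b c zp = 0)) c d z = feat (decide (b = 0)) c d z := by
  by_cases hc : c = 0
  · simp [feat, hc]
  · have : feat a0 b c zp = 0 ↔ b = 0 := by
      unfold feat
      by_cases hb : b = 0
      · simp [hb]
      · simp only [hb, hc, or_self, if_false, iff_false]; split_ifs <;> omega
    simp [this]

lemma Fc_end : ∀ f < 5, ∀ c < 3, ∀ z : Bool, ∀ e < 3, ∀ zn : Bool,
    Fc f c 0 z e zn = Fc f c 0 z 0 false := by decide

variable {U : Finset (ℤ × ℤ)} {P : ℕ → ℤ × ℤ} {δ : ℕ → Fin 6} {T : ℕ → ℕ}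

lemma Path.from_straight (hT : TF U) (h : Path U P δ T) {n : ℕ} (hodd : n % 2 = 1) (h3 : 3 ≤ n)
    (perP : ∀ i, P (i + n) = P i) (perδ : ∀ i, δ (i + n) = δ i)
    (inj : ∀ i j, i < j → j < i + n → P i ≠ P j) (s : ℕ) (hs : T (s + 3) = 0) (hs' : T (s + 3 + n) = 0) :
    54 ≤ ∑ k ∈ range n, (a6 U (P (s + k + 3)) (δ (s + k + 3)) + a6 U (P (s + k + 3)) (δ (s + k + 2) + 3)) := by
  let dd : ℕ → ℕ := fun i => (δ (s + i + 3) - δ (s + 3)).val
  let q : ℕ → ℤ × ℤ := fun i => ∑ j ∈ range i, Dn (dd j)
  let fs : ℕ → ℕ := fun k => feat (decide (T (s + k + 1) = 0)) (T (s + k + 2)) (T (s + k + 3))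
    (Zb U P δ T (s + k + 2))
  let m : ℕ → ℕ := fun k => enc (fs k) (T (s + k + 3)) (T (s + k + 4)) (Zb U P δ T (s + k + 3))
  let lab : ℕ → ℕ := fun k => 2 * T (s + k + 5) + (Zb U P δ T (s + k + 4)).toNat
  have hstep : ∀ i, q (i + 1) = q i + Dn (dd i) := fun i => sum_range_succ _ _
  have hq : ∀ i, P (s + i + 3) = P (s + 3) + rho (δ (s + 3)) (q i) := by
    intro i
    induction i with
    | zero => simp [q, rho]
    | succ i ih =>
      rw [hstep, rho_add, ← add_assoc (P (s + 3)), ← ih]
      simp only [dd]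
      rw [rho_Dn]; exact h.step _
  have hlab : ∀ k, lab k / 2 = T (s + k + 5) := fun k => by
    simp only [lab]; cases Zb U P δ T (s + k + 4) <;> simp <;> omega
  have hspec := fun k => tm_spec _ (feat_lt (decide (T (s + k + 1) = 0)) (T (s + k + 2)) (T (s + k + 3))
    (Zb U P δ T (s + k + 2))) _ (h.lt (s + k + 3)) _ (h.lt (s + k + 4)) (Zb U P δ T (s + k + 3)) _
    (h.lt (s + k + 5)) (Zb U P δ T (s + k + 4))
  have R : Run n q dd m lab := {
    q0 := rfl
    qn := by
      apply rho_zero (δ (s + 3))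
      have := hq n
      rw [add_right_comm, perP] at this
      simpa using this
    step := hstep
    dlt := fun i => Fin.is_lt _
    hdd := fun k => by
      rw [hlab]
      simp only [dd]
      rw [← turn_val _ _ _ (h.lt _)]
      exact congrArg (fun a : Fin 6 => (a - δ (s + 3)).val) (h.turn (s + k + 4))
    hm := fun k => by
      simp only [m, lab, fs]
      rw [(hspec k).2, feat_feat]; rfl
    mlt := fun k => by
      have h1 : fs k < 5 := feat_lt _ _ _ _
      have h2 := h.lt (s + k + 3)
      have h4 := h.lt (s + k + 4)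
      simp only [m, enc]
      cases Zb U P δ T (s + k + 3) <;> simp <;> omega
    llt := fun k => by
      have h2 := h.lt (s + k + 5)
      simp only [lab]
      cases Zb U P δ T (s + k + 4) <;> simp <;> omega
    hz := fun k hk => by
      have h4 := h.lt (s + k + 4)
      have : T (s + k + 4) = 0 := by
        simp only [m, enc] at hk
        revert hk
        cases Zb U P δ T (s + k + 3) <;> simp <;> omega
      simp [lab, Zb, this]
    odd := hodd
    three := h3
    dend := by
      have h1 := h.turn (s + (n - 1) + 3)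
      rw [show s + (n - 1) + 3 + 1 = s + 3 + n by omega, hs', perδ] at h1
      simp only [dd]
      rw [h1]; simp [tdF]
    lend := by rw [hlab, ← hs']; congr 1; omega
    cend := by
      have h1 : T (s + (n - 1) + 4) = 0 := by rw [← hs']; congr 1; omega
      have h2 := (tm_spec _ (feat_lt (decide (T (s + (n - 1) + 1) = 0)) (T (s + (n - 1) + 2))
        (T (s + (n - 1) + 3)) (Zb U P δ T (s + (n - 1) + 2))) _ (h.lt (s + (n - 1) + 3)) 0 (by omega)
        (Zb U P δ T (s + (n - 1) + 3)) 0 (by omega) false).1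
      simp only [m, lab, fs]
      rw [(hspec (n - 1)).1, h1, Fc_end _ (feat_lt _ _ _ _) _ (h.lt _) _ _ (h.lt _), ← h2]
      rfl
    inj := fun i j hij hj e => inj (s + i + 3) (s + j + 3) (by omega) (by omega) (by rw [hq, hq, e])
    tri := fun i j l d hd e1 e2 => by
      obtain ⟨a, ha1, ha2⟩ := rho_Dn' (δ (s + 3)) d hd
      refine hT (P (s + i + 3)) a (h.mem _) ?_ ?_
      · rw [← ha1, hq, add_assoc, ← rho_add, ← e1, ← hq]; exact h.mem _
      · rw [← ha2, hq, add_assoc, ← rho_add, ← e2, ← hq]; exact h.mem _ }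
  have tot := R.total (T (s + 4)) (h.lt _) (by simp [dd]) (by
      simp only [dd]
      rw [show s + 1 + 3 = s + 3 + 1 from rfl, h.turn, turn_val _ _ _ (h.lt _)]
      have := h.lt (s + 4)
      rw [show s + 3 + 1 = s + 4 from rfl]
      generalize T (s + 4) = e at this
      interval_cases e <;> simp <;> decide)
    (by simp [m, fs, enc, feat, hs, Zb]; ring)
  calc 54 ≤ 3 * ∑ i ∈ range n, cst (m i) (lab i) := by omega
    _ ≤ _ := by
      rw [mul_sum]
      refine sum_le_sum fun k _ => ?_
      simp only [m, lab, fs]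
      rw [(hspec k).1]
      exact h.vertex hT (s + k)

theorem cycle_weight (hT : TF U) {n : ℕ} (hodd : n % 2 = 1) (h3 : 3 ≤ n)
    (mem : ∀ i, P i ∈ U) (step : ∀ i, P (i + 1) = P i + D (δ i)) (perP : ∀ i, P (i + n) = P i)
    (inj : ∀ i j, i < j → j < i + n → P i ≠ P j) :
    54 ≤ ∑ i ∈ range n, (a6 U (P i) (δ i) + a6 U (P (i + 1)) (δ i + 3)) := by
  have perδ : ∀ i, δ (i + n) = δ i := fun i => by
    apply D_inj
    have h1 := step (i + n)
    rw [add_right_comm, perP, perP, step] at h1
    exact (add_left_cancel h1).symm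
  let T : ℕ → ℕ := fun i => if δ i = δ (i - 1) then 0 else if δ i = δ (i - 1) + 1 then 1 else 2
  have h : Path U P δ T := {
    mem := mem
    step := step
    lt := fun i => by simp only [T]; split_ifs <;> omega
    turn := fun i => by
      have back : P (i + 1) + D (δ i + 3) = P i := by rw [step, add_assoc, D_back, add_zero]
      have b1 : P (i + 1) + D (δ i + 3) ∈ U := back ▸ mem i
      have f1 : P (i + 1) + D (δ (i + 1)) ∈ U := step (i + 1) ▸ mem (i + 2)
      have n2 : δ (i + 1) ≠ δ i + 2 := fun e =>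
        hT _ (δ i + 2) (mem (i + 1)) (e ▸ f1) (by simpa [add_assoc] using b1)
      have n4 : δ (i + 1) ≠ δ i + 4 := fun e =>
        hT _ (δ i + 3) (mem (i + 1)) b1 (by rw [e] at f1; simpa [add_assoc] using f1)
      have n3 : δ (i + 1) ≠ δ i + 3 := fun e =>
        inj i (i + 2) (by omega) (by omega) (by rw [step (i + 1), e, back])
      simp only [T, Nat.add_sub_cancel]
      revert n2 n3 n4
      generalize δ (i + 1) = a; generalize δ i = b
      revert a b; decide }
  obtain ⟨s, hs⟩ : ∃ s, T (s + 3) = 0 := by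
    by_contra hcon
    push Not at hcon
    have : ∀ k, (δ (2 + k)).val % 2 = ((δ 2).val + k) % 2 := by
      intro k
      induction k with
      | zero => rfl
      | succ k ih =>
        rw [← add_assoc, h.turn, turn_par _ _ (h.lt _) (by
          rw [show 2 + k + 1 = k + 3 by omega]; exact hcon k)]
        omega
    have h1 := this n
    rw [perδ] at h1
    omega
  have hs' : T (s + 3 + n) = 0 := by
    rw [← hs]
    simp only [T]
    rw [perδ, show s + 3 + n - 1 = s + 3 - 1 + n by omega, perδ]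
  have key := h.from_straight hT hodd h3 perP perδ inj s hs hs'
  rw [sum_add_distrib] at key ⊢
  have e1 := sum_shift (f := fun i => a6 U (P i) (δ i)) (n := n) (fun i => by simp only [perP, perδ]) (s + 3)
  have e2 := sum_shift (f := fun i => a6 U (P (i + 1)) (δ i + 3)) (n := n)
    (fun i => by simp only [add_right_comm i n 1, perP, perδ]) (s + 2)
  rw [← e1, ← e2]
  convert key using 3 with k _ k _
  · rw [add_right_comm]
  · rw [add_right_comm s 2 k]

end Pool.Agent.P.MP_8fd115_co
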