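import Pool.Agent.P.MP_8fd115_co.General
import Pool.Agent.P.MP_8fd115_co.Cycle

/-! Planar duality in the triangular lattice, and the weighted stable set theorem. -/

set_option linter.unusedSimpArgs false

namespace Pool.Agent.P.MP_8fd115_co

open Finset

abbrev Ed := (ℤ × ℤ) × Fin 3
abbrev Fa := (ℤ × ℤ) × Bool

def up3 (k : Fin 3) : Fin 6 := Fin.castLE (by omega) k
def hd (e : Ed) : ℤ × ℤ := e.1 + D (up3 e.2)
def ce (v : ℤ × ℤ) (d : Fin 6) : Ed :=
  if h : d.val < 3 then (v, ⟨d.val, h⟩) else (v + D d, ⟨d.val - 3, by omega⟩)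
def sF (e : Ed) : Fa := (e.1 + ![(0, 0), (0, 0), (-1, 0)] e.2, true)
def tF (e : Ed) : Fa := (e.1 + ![(0, -1), (-1, 0), (-1, 0)] e.2, false)
def fe (f : Fa) (k : Fin 3) : Ed :=
  (f.1 + (if f.2 then ![(0, 0), (0, 0), (1, 0)] k else ![(0, 1), (1, 0), (1, 0)] k), k)
noncomputable def Bx (N : ℕ) : Finset (ℤ × ℤ) := Icc (-(N : ℤ)) N ×ˢ Icc (-(N : ℤ)) N
noncomputable def Cx (N : ℕ) : Finset (ℤ × ℤ) := Ico (-(N : ℤ)) N ×ˢ Ico (-(N : ℤ)) N
noncomputable def Es (N : ℕ) : Finset Ed := Bx N ×ˢ univ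
noncomputable def Fs (N : ℕ) : Finset Fa := Cx N ×ˢ univ

lemma star_eq {N : ℕ} {f : Fa} (hf : f ∈ Fs N) (h : Ed → ZMod 2) :
    ∑ e ∈ cutF (Es N) sF tF {f}, h e = ∑ k, h (fe f k) := by
  have : cutF (Es N) sF tF {f} = univ.image (fe f) := by
    ext ⟨⟨a, b⟩, k⟩
    obtain ⟨⟨p, q⟩, u⟩ := f
    simp only [Fs, Cx, mem_product, mem_Ico, mem_univ, and_true] at hf
    simp only [cutF, Es, Bx, mem_filter, mem_product, mem_Icc, mem_univ, and_true, mem_singleton,
      mem_image, true_and, fe, Prod.mk.injEq, exists_eq_right]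
    cases u <;> fin_cases k <;> simp [sF, tF] <;> omega
  rw [this, sum_image]
  intro a _ b _ hab
  exact (Prod.ext_iff.1 hab).2

lemma face_cob (f : Fa) (χ : ℤ × ℤ → ZMod 2) :
    ∑ k, (χ (fe f k).1 + χ (hd (fe f k)) + 1) = 1 := by
  obtain ⟨⟨p, q⟩, u⟩ := f
  cases u
  · simp only [Fin.sum_univ_three, fe, hd, up3, D]
    simp
    generalize χ (p, q + 1) = a; generalize χ (p + 1, q + 1) = b; generalize χ (p + 1, q) = c
    revert a b c; decide
  · simp only [Fin.sum_univ_three, fe, hd, up3, D]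
    simp
    generalize χ (p, q + 1) = a; generalize χ (p, q) = b; generalize χ (p + 1, q) = c
    revert a b c; decide

lemma ce_up (e : Ed) : ce e.1 (up3 e.2) = e := by
  obtain ⟨v, k⟩ := e
  simp [ce, up3]

lemma ce_cases (v : ℤ × ℤ) (d : Fin 6) :
    ((ce v d).1 = v ∧ up3 (ce v d).2 = d) ∨ ((ce v d).1 = v + D d ∧ up3 (ce v d).2 = d + 3) := by
  fin_cases d <;> simp [ce, up3]

lemma ce_back (v : ℤ × ℤ) (d : Fin 6) : ce (v + D d) (d + 3) = ce v d := by
  obtain ⟨a, b⟩ := v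
  fin_cases d <;> simp [ce, D]

lemma D_back' (v : ℤ × ℤ) (d : Fin 6) : v + D d + D (d + 3) = v := by
  rw [add_assoc, D_back, add_zero]

noncomputable def xw (U : Finset (ℤ × ℤ)) (e : Ed) : ℝ :=
  if e.1 ∈ U ∧ hd e ∈ U then ((a6 U e.1 (up3 e.2) + a6 U (hd e) (up3 e.2 + 3) : ℕ) : ℝ) / 54 else 1

lemma xw_nonneg (U : Finset (ℤ × ℤ)) (e : Ed) : 0 ≤ xw U e := by
  unfold xw; split_ifs <;> positivity

lemma xw_ce {U : Finset (ℤ × ℤ)} {v : ℤ × ℤ} {d : Fin 6} (h : (ce v d).1 ∈ U ∧ hd (ce v d) ∈ U) :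
    v ∈ U ∧ xw U (ce v d) = ((a6 U v d + a6 U (v + D d) (d + 3) : ℕ) : ℝ) / 54 := by
  unfold xw
  rw [if_pos h]
  unfold hd at h ⊢
  rcases ce_cases v d with ⟨h1, h2⟩ | ⟨h1, h2⟩ <;> rw [h1, h2] at h ⊢
  · exact ⟨h.1, rfl⟩
  · rw [D_back'] at h ⊢
    refine ⟨h.2, ?_⟩
    rw [add_assoc d, show (3 + 3 : Fin 6) = 0 from rfl, add_zero, add_comm]

theorem feasible {U : Finset (ℤ × ℤ)} (hT : TF U) (N : ℕ) (S : Finset Fa) (hS : S ⊆ Fs N)
    (hodd : (S.card : ZMod 2) = 1) : 1 ≤ ∑ e ∈ cutF (Es N) sF tF S, xw U e := by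
  set Z := cutF (Es N) sF tF S with hZ
  by_cases hG : ∃ e ∈ Z, ¬ (e.1 ∈ U ∧ hd e ∈ U)
  · obtain ⟨e, he, hn⟩ := hG
    have := single_le_sum (fun e _ => xw_nonneg U e) he
    rwa [xw, if_neg hn] at this
  push Not at hG
  let H : SimpleGraph (ℤ × ℤ) := {
    Adj := fun u v => ∃ d, v = u + D d ∧ ce u d ∈ Z
    symm := ⟨by
      rintro u v ⟨d, rfl, hd⟩
      exact ⟨d + 3, (D_back' u d).symm, by rwa [ce_back]⟩⟩
    loopless := ⟨by
      rintro u ⟨d, h, -⟩
      have : ∀ d, D d ≠ 0 := by decide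
      exact this d (by simpa using h)⟩ }
  have hH : ¬ H.Colorable 2 := by
    rintro ⟨C⟩
    let χ : ℤ × ℤ → ZMod 2 := C
    have h1 := sum_star (Es N) sF tF S (fun e => χ e.1 + χ (hd e) + 1)
    rw [sum_congr rfl (fun f hf => (star_eq (hS hf) _).trans (face_cob f χ)),
      sum_eq_zero (s := cutF _ _ _ _)] at h1
    · simp [hodd] at h1
    · intro e he
      have : χ e.1 ≠ χ (hd e) := C.valid ⟨up3 e.2, rfl, by rwa [ce_up]⟩
      revert this; generalize χ e.1 = a; generalize χ (hd e) = b; revert a b; decide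
  obtain ⟨n, P, h1, h3, hadj, per, inj⟩ := exists_odd_cycle hH
  choose δ step hZ' using hadj
  have key := cycle_weight hT h1 h3 (fun i => (xw_ce (hG _ (hZ' i))).1) step per inj
  have hinj : Set.InjOn (fun i => ce (P i) (δ i)) (range n : Finset ℕ) := by
    have aux : ∀ i j, i < j → j < n → ce (P i) (δ i) ≠ ce (P j) (δ j) := by
      intro i j hij hj e
      have n1 := inj i j hij (by omega)
      rcases ce_cases (P i) (δ i) with ⟨a1, a2⟩ | ⟨a1, a2⟩ <;>
        rcases ce_cases (P j) (δ j) with ⟨b1, b2⟩ | ⟨b1, b2⟩ <;> rw [e] at a1 a2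
      · exact n1 (a1.symm.trans b1)
      · have e1 : P i = P (j + 1) := by rw [step j, ← a1, b1]
        have e2 : P (i + 1) = P j := by rw [step i, e1, step j, ← a2, b2, D_back']
        by_cases hh : j = i + 1
        · exact inj i (j + 1) (by omega) (by omega) e1
        · exact inj (i + 1) j (by omega) (by omega) e2
      · have e1 : P (i + 1) = P j := by rw [step i, ← a1, b1]
        have e2 : P i = P (j + 1) := by rw [step j, ← e1, step i, ← b2, a2, D_back']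
        by_cases hh : j = i + 1
        · exact inj i (j + 1) (by omega) (by omega) e2
        · exact inj (i + 1) j (by omega) (by omega) e1
      · exact inj (i + 1) (j + 1) (by omega) (by omega) (by rw [step i, step j, ← a1, b1])
    intro i hi j hj e
    simp only [coe_range, Set.mem_Iio] at hi hj
    rcases lt_trichotomy i j with h | h | h
    · exact absurd e (aux i j h hj)
    · exact h
    · exact absurd e.symm (aux j i h hi)
  calc (1 : ℝ) ≤ ∑ i ∈ range n, xw U (ce (P i) (δ i)) := by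
        simp only [fun i => (xw_ce (hG _ (hZ' i))).2, ← step]
        rw [← sum_div, le_div_iff₀ (by norm_num), one_mul]
        exact_mod_cast key
    _ = ∑ e ∈ (range n).image (fun i => ce (P i) (δ i)), xw U e := (sum_image hinj).symm
    _ ≤ _ := sum_le_sum_of_subset_of_nonneg (fun e he => by
        obtain ⟨i, -, rfl⟩ := mem_image.1 he; exact hZ' i) fun e _ _ => xw_nonneg U e

lemma exact_nat (z0 z1 z2 : ℕ → ℕ → ZMod 2) (M : ℕ)
    (hu : ∀ a < M, ∀ b < M, z0 a b + z1 a b + z2 a b = 0)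
    (hd : ∀ a < M, ∀ b < M, z0 a (b + 1) + z1 (a + 1) b + z2 a b = 0) :
    ∃ σ : ℕ → ℕ → ZMod 2, (∀ a < M, ∀ b ≤ M, σ a b + σ (a + 1) b = z0 a b) ∧
      (∀ a b, σ a b + σ a (b + 1) = z1 a b) ∧
      (∀ a < M, ∀ b < M, σ (a + 1) b + σ a (b + 1) = z2 a b) := by
  let σ : ℕ → ℕ → ZMod 2 := fun a b => ∑ i ∈ range a, z0 i 0 + ∑ j ∈ range b, z1 a j
  have h1 : ∀ a b, σ a (b + 1) = σ a b + z1 a b := fun a b => by
    simp only [σ, sum_range_succ, add_assoc]
  have h0 : ∀ a < M, ∀ b ≤ M, σ (a + 1) b = σ a b + z0 a b := by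
    intro a ha b
    induction b with
    | zero => intro _; simp [σ, sum_range_succ]
    | succ b ih =>
      intro hb
      rw [h1, h1, ih (by omega)]
      have e1 := hu a ha b (by omega)
      have e2 := hd a ha b (by omega)
      revert e1 e2
      generalize σ a b = p; generalize z0 a b = q; generalize z1 a b = r; generalize z2 a b = s
      generalize z0 a (b + 1) = t; generalize z1 (a + 1) b = u
      revert p q r s t u; decide
  refine ⟨σ, fun a ha b hb => ?_, fun a b => ?_, fun a ha b hb => ?_⟩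
  · rw [h0 a ha b hb, ← add_assoc, z2add, zero_add]
  · rw [h1, ← add_assoc, z2add, zero_add]
  · rw [h0 a ha b hb.le, h1]
    have e1 := hu a ha b hb
    revert e1
    generalize σ a b = p; generalize z0 a b = q; generalize z1 a b = r; generalize z2 a b = s
    revert p q r s; decide

lemma exact_box (N : ℕ) (z : Ed → ZMod 2) (hz : ∀ f ∈ Fs N, ∑ k, z (fe f k) = 0) :
    ∃ σ : ℤ × ℤ → ZMod 2, ∀ e : Ed, e.1 ∈ Bx N → hd e ∈ Bx N → σ e.1 + σ (hd e) = z e := by
  obtain ⟨σ, h0, h1, h2⟩ := exact_nat (fun a b => z (((a : ℤ) - N, (b : ℤ) - N), 0))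
    (fun a b => z (((a : ℤ) - N, (b : ℤ) - N), 1))
    (fun a b => z (((a : ℤ) - N + 1, (b : ℤ) - N), 2)) (2 * N)
    (fun a ha b hb => by
      have := hz (((a : ℤ) - N, (b : ℤ) - N), true) (by simp [Fs, Cx]; omega)
      simpa [Fin.sum_univ_three, fe] using this)
    (fun a ha b hb => by
      have := hz (((a : ℤ) - N, (b : ℤ) - N), false) (by simp [Fs, Cx]; omega)
      simpa [Fin.sum_univ_three, fe, sub_add_eq_add_sub] using this)
  refine ⟨fun v => σ (v.1 + N).toNat (v.2 + N).toNat, ?_⟩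
  rintro ⟨⟨p, q⟩, k⟩ hv hw
  simp only [Bx, mem_product, mem_Icc] at hv hw
  obtain ⟨b, rfl⟩ : ∃ b : ℕ, q = b - N := ⟨(q + N).toNat, by omega⟩
  fin_cases k
  · obtain ⟨a, rfl⟩ : ∃ a : ℕ, p = a - N := ⟨(p + N).toNat, by omega⟩
    simp [hd, up3, D] at hw ⊢
    rw [show ((a : ℤ) - N + 1 + N).toNat = a + 1 by omega]
    exact h0 a (by omega) b (by omega)
  · obtain ⟨a, rfl⟩ : ∃ a : ℕ, p = a - N := ⟨(p + N).toNat, by omega⟩
    simp [hd, up3, D] at hw ⊢
    rw [show ((b : ℤ) - N + 1 + N).toNat = b + 1 by omega]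
    exact h1 a b
  · simp [hd, up3, D] at hw
    obtain ⟨a, rfl⟩ : ∃ a : ℕ, p = a - N + 1 := ⟨(p + N - 1).toNat, by omega⟩
    simp [hd, up3, D] at hw ⊢
    rw [show ((b : ℤ) - N + 1 + N).toNat = b + 1 by omega,
      show ((a : ℤ) - N + 1 + N).toNat = a + 1 by omega]
    exact h2 a (by omega) b (by omega)

lemma up3_sum (f : Fin 6 → ℝ) : ∑ k : Fin 3, (f (up3 k) + f (up3 k + 3)) = ∑ d, f d := by
  simp only [Fin.sum_univ_three, Fin.sum_univ_six, up3]
  show f 0 + f 3 + (f 1 + f 4) + (f 2 + f 5) = _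
  ring

lemma cost_bound {U : Finset (ℤ × ℤ)} (hT : TF U) {N : ℕ} (hU : U ⊆ Bx N) (w : ℤ × ℤ → ℕ) :
    ∑ e ∈ Es N, ((if e.1 ∈ U ∧ hd e ∈ U then min (w e.1) (w (hd e)) else 0 : ℕ) : ℝ) * xw U e
      ≤ (∑ v ∈ U, (w v : ℝ)) / 9 := by
  let g : ℤ × ℤ → Fin 6 → ℝ := fun v d =>
    if v ∈ U ∧ v + D d ∈ U then w v * (a6 U v d : ℝ) / 54 else 0
  have h1 : ∀ e : Ed, ((if e.1 ∈ U ∧ hd e ∈ U then min (w e.1) (w (hd e)) else 0 : ℕ) : ℝ) * xw U e
      ≤ g e.1 (up3 e.2) + g (e.1 + D (up3 e.2)) (up3 e.2 + 3) := by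
    intro e
    simp only [g, xw, D_back', hd]
    by_cases h : e.1 ∈ U ∧ e.1 + D (up3 e.2) ∈ U
    · simp only [h, and_self, if_true]
      push_cast
      have a1 := min_le_left (w e.1 : ℝ) (w (e.1 + D (up3 e.2)))
      have a2 := min_le_right (w e.1 : ℝ) (w (e.1 + D (up3 e.2)))
      have a3 := mul_le_mul_of_nonneg_right a1 (Nat.cast_nonneg (a6 U e.1 (up3 e.2)))
      have a4 := mul_le_mul_of_nonneg_right a2
        (Nat.cast_nonneg (a6 U (e.1 + D (up3 e.2)) (up3 e.2 + 3)))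
      linarith
    · simp [h, and_comm]
  have h2 : ∀ d, ∑ v ∈ Bx N, g v d = ∑ v ∈ U, g v d := fun d =>
    (sum_subset hU fun v _ hv => by simp [g, hv]).symm
  have h3 : ∀ d, ∑ v ∈ Bx N, g (v + D d) (d + 3) = ∑ v ∈ U, g v (d + 3) := by
    intro d
    refine sum_bij_ne_zero (fun v _ _ => v + D d) ?_ ?_ ?_ ?_
    · intro v _ hv
      by_contra h; exact hv (by simp [g, h])
    · intro a _ _ b _ _ h
      exact add_right_cancel h
    · intro u hu hne
      have e1 : u + D (d + 3) + D d = u := by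
        rw [add_assoc, add_comm (D _), D_back, add_zero]
      refine ⟨u + D (d + 3), hU ?_, by rwa [e1], e1⟩
      by_contra h; exact hne (by simp [g, h])
    · intro _ _ _; rfl
  calc _ ≤ ∑ e ∈ Es N, (g e.1 (up3 e.2) + g (e.1 + D (up3 e.2)) (up3 e.2 + 3)) :=
        sum_le_sum fun e _ => h1 e
    _ = ∑ v ∈ U, ∑ d, g v d := by
        rw [Es, sum_product_right]
        simp only [sum_add_distrib (s := Bx N), h2, h3, ← sum_add_distrib (s := U)]
        rw [sum_comm]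
        exact sum_congr rfl fun v _ => up3_sum (g v)
    _ ≤ _ := by
        rw [sum_div]
        refine sum_le_sum fun v hv => ?_
        have h4 : ∑ d, g v d = w v * ((∑ d, (if v + D d ∈ U then a6 U v d else 0) : ℕ) : ℝ) / 54 := by
          push_cast
          rw [mul_sum, sum_div]
          refine sum_congr rfl fun d _ => ?_
          by_cases h : v + D d ∈ U <;> simp [g, h, hv]
        have h5 : ((∑ d, (if v + D d ∈ U then a6 U v d else 0) : ℕ) : ℝ) ≤ 6 := by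
          exact_mod_cast budget hT hv
        have h6 := mul_le_mul_of_nonneg_left h5 (Nat.cast_nonneg (w v) : (0 : ℝ) ≤ w v)
        rw [h4]; linarith

def Ind (I : Finset (ℤ × ℤ)) : Prop := ∀ v ∈ I, ∀ d, v + D d ∉ I

theorem weighted_stable {U : Finset (ℤ × ℤ)} (hT : TF U) (w : ℤ × ℤ → ℕ) :
    ∃ I ⊆ U, Ind I ∧ 4 * ∑ v ∈ U, w v ≤ 9 * ∑ v ∈ I, w v := by
  obtain ⟨N, hU⟩ : ∃ N, U ⊆ Bx N := by
    refine ⟨U.sup fun v => v.1.natAbs + v.2.natAbs, fun v hv => ?_⟩
    have := le_sup (f := fun v : ℤ × ℤ => v.1.natAbs + v.2.natAbs) hv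
    simp only [Bx, mem_product, mem_Icc]
    omega
  obtain ⟨g, hg, hc⟩ := tjoin_fin (Es N) (Fs N) sF tF (xw U) (xw_nonneg U)
    (fun e => if e.1 ∈ U ∧ hd e ∈ U then min (w e.1) (w (hd e)) else 0) (feasible hT N)
  obtain ⟨σ, hσ⟩ := exact_box N (fun e => 1 + g e) (fun f hf => by
    rw [sum_add_distrib, ← star_eq hf g, hg f hf]; decide)
  let lo : Ed → ℤ × ℤ := fun e => if w e.1 ≤ w (hd e) then e.1 else hd e
  let J := (Es N).filter fun e => (e.1 ∈ U ∧ hd e ∈ U) ∧ g e = 1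
  let X := J.image lo
  have hX : 9 * ∑ v ∈ X, w v ≤ ∑ v ∈ U, w v := by
    have h1 : ∑ v ∈ X, w v ≤ ∑ e ∈ J, w (lo e) := sum_image_le_of_nonneg (fun _ _ => Nat.zero_le _)
    have h2 : ∑ e ∈ J, w (lo e) = ∑ e ∈ Es N,
        (if e.1 ∈ U ∧ hd e ∈ U then min (w e.1) (w (hd e)) else 0) * (g e).val := by
      rw [sum_filter]
      refine sum_congr rfl fun e _ => ?_
      rcases z2 (g e) with h | h
      · simp [h]
      · by_cases h' : e.1 ∈ U ∧ hd e ∈ U
        · simp only [h, h', and_self, if_true, ZMod.val_one, mul_one, lo]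
          split_ifs <;> omega
        · simp [h']
    have h3 := hc.trans (cost_bound hT hU w)
    rw [← h2, le_div_iff₀ (by norm_num)] at h3
    have h4 : (∑ e ∈ J, w (lo e)) * 9 ≤ ∑ v ∈ U, w v := by exact_mod_cast h3
    omega
  have hind : ∀ r, Ind ((U \ X).filter fun v => σ v = r) := by
    intro r v hv d hv'
    simp only [mem_filter, mem_sdiff] at hv hv'
    have hends : ((ce v d).1 = v ∧ hd (ce v d) = v + D d) ∨
        ((ce v d).1 = v + D d ∧ hd (ce v d) = v) := by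
      unfold hd
      rcases ce_cases v d with ⟨h1, h2⟩ | ⟨h1, h2⟩ <;> rw [h1, h2]
      · exact Or.inl ⟨rfl, rfl⟩
      · exact Or.inr ⟨rfl, D_back' _ _⟩
    generalize ce v d = e at hends
    have key : e.1 ∈ U → hd e ∈ U → e.1 ∉ X → hd e ∉ X → σ e.1 = r → σ (hd e) = r → False := by
      intro a1 a2 a3 a4 a5 a6
      have h1 := hσ e (hU a1) (hU a2)
      rw [a5, a6, z2add] at h1
      have h2 : g e = 1 := by revert h1; generalize g e = p; revert p; decide
      have h3 : lo e ∈ X := mem_image_of_mem _ (mem_filter.2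
        ⟨mem_product.2 ⟨hU a1, mem_univ _⟩, ⟨a1, a2⟩, h2⟩)
      simp only [lo] at h3
      split_ifs at h3
      · exact a3 h3
      · exact a4 h3
    rcases hends with ⟨h1, h2⟩ | ⟨h1, h2⟩ <;> rw [h1, h2] at key
    · exact key hv.1.1 hv'.1.1 hv.1.2 hv'.1.2 hv.2 hv'.2
    · exact key hv'.1.1 hv.1.1 hv'.1.2 hv.1.2 hv'.2 hv.2
  have hsum : ∑ v ∈ U, w v ≤ ∑ v ∈ X, w v + (∑ v ∈ (U \ X).filter (fun v => σ v = 0), w v +
      ∑ v ∈ (U \ X).filter (fun v => σ v = 1), w v) := by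
    have h1 : (U \ X).filter (fun v => σ v = 1) = (U \ X).filter (fun v => ¬ σ v = 0) :=
      filter_congr fun v _ => by generalize σ v = p; revert p; decide
    rw [h1, sum_filter_add_sum_filter_not, ← sum_union disjoint_sdiff]
    exact sum_le_sum_of_subset (by simp)
  rcases le_total (∑ v ∈ (U \ X).filter (fun v => σ v = 0), w v)
    (∑ v ∈ (U \ X).filter (fun v => σ v = 1), w v) with h | h
  · exact ⟨_, (filter_subset _ _).trans sdiff_subset, hind 1, by omega⟩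
  · exact ⟨_, (filter_subset _ _).trans sdiff_subset, hind 0, by omega⟩

theorem frac {U : Finset (ℤ × ℤ)} (hT : TF U) :
    ∃ m, 0 < m ∧ ∃ col : Fin (9 * m) → Finset (ℤ × ℤ), (∀ j, Ind (col j)) ∧
      ∀ v ∈ U, (univ.filter fun j => v ∈ col j).card = 4 * m :=
  multi_of_weights U Ind (fun _ _ h hI v hv d hd => hI v (h hv) d (h hd)) 4 9 (by omega)
    (weighted_stable hT)

end Pool.Agent.P.MP_8fd115_co
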