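import Pool.Agent.P.MP_8fd115_co.Defs
import Pool.Agent.P.MP_8fd115_co.Dual

/-! From the unit-distance definition to lattice directions. -/

namespace Pool.Agent.P.MP_8fd115_co

open Finset

lemma adj_iff_form (u v : ℤ × ℤ) : TL.Adj u v ↔
    (v.1 - u.1) ^ 2 + (v.1 - u.1) * (v.2 - u.2) + (v.2 - u.2) ^ 2 = 1 := by
  show dist (pt u) (pt v) = 1 ↔ _
  rw [Complex.dist_eq_re_im, Real.sqrt_eq_one]
  have h3 : Real.sqrt 3 ^ 2 = 3 := Real.sq_sqrt (by norm_num)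
  have : ((pt u).re - (pt v).re) ^ 2 + ((pt u).im - (pt v).im) ^ 2 =
      (((v.1 - u.1) ^ 2 + (v.1 - u.1) * (v.2 - u.2) + (v.2 - u.2) ^ 2 : ℤ) : ℝ) := by
    simp only [pt]
    push_cast
    linear_combination ((u.2 : ℝ) - v.2) ^ 2 / 4 * h3
  rw [this]
  exact_mod_cast Iff.rfl

lemma adj_iff (u v : ℤ × ℤ) : TL.Adj u v ↔ ∃ d, v = u + D d := by
  rw [adj_iff_form]
  constructor
  · intro h
    obtain ⟨a, ha⟩ : ∃ a, v.1 = u.1 + a := ⟨v.1 - u.1, by ring⟩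
    obtain ⟨b, hb⟩ : ∃ b, v.2 = u.2 + b := ⟨v.2 - u.2, by ring⟩
    rw [ha, hb, add_sub_cancel_left, add_sub_cancel_left] at h
    have a1 : a ≤ 1 := by nlinarith [sq_nonneg (a + 2 * b)]
    have a2 : -1 ≤ a := by nlinarith [sq_nonneg (a + 2 * b)]
    have b1 : b ≤ 1 := by nlinarith [sq_nonneg (2 * a + b)]
    have b2 : -1 ≤ b := by nlinarith [sq_nonneg (2 * a + b)]
    have : ∃ d, D d = (a, b) := by
      interval_cases a <;> interval_cases b <;> first | decide | omega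
    obtain ⟨d, hd⟩ := this
    exact ⟨d, by rw [hd]; exact Prod.ext ha hb⟩
  · rintro ⟨d, rfl⟩
    simp only [Prod.fst_add, Prod.snd_add, add_sub_cancel_left]
    revert d; decide

lemma tf_of_cliqueFree {U : Finset (ℤ × ℤ)} (hU : (TL.induce (U : Set (ℤ × ℤ))).CliqueFree 3) :
    TF U := by
  intro v d h1 h2 h3
  refine hU {⟨v, h1⟩, ⟨v + D d, h2⟩, ⟨v + D (d + 1), h3⟩} ?_
  rw [SimpleGraph.is3Clique_triple_iff]
  refine ⟨(adj_iff _ _).2 ⟨d, rfl⟩, (adj_iff _ _).2 ⟨d + 1, rfl⟩, (adj_iff _ _).2 ⟨d + 2, ?_⟩⟩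
  have : ∀ d : Fin 6, D (d + 1) = D d + D (d + 2) := by decide
  show v + D (d + 1) = v + D d + D (d + 2)
  rw [this d, add_assoc]

/-- the conjecture of McDiarmid on stable sets -/
theorem mcdiarmid (U : Finset (ℤ × ℤ)) (hU : (TL.induce (U : Set (ℤ × ℤ))).CliqueFree 3) :
    ∃ I ⊆ U, TL.IsIndepSet (I : Set (ℤ × ℤ)) ∧ 4 * U.card ≤ 9 * I.card := by
  obtain ⟨I, h1, h2, h3⟩ := weighted_stable (tf_of_cliqueFree hU) (fun _ => 1)
  refine ⟨I, h1, fun u hu v hv _ h => ?_, by simpa using h3⟩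
  obtain ⟨d, rfl⟩ := (adj_iff _ _).1 h
  exact h2 u hu d hv

end Pool.Agent.P.MP_8fd115_co
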