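import Mathlib

/-! The triangular lattice as a unit-distance graph, and weighted colourings. -/

namespace Pool.Agent.P.MP_8fd115_co

/-- the point `a e₁ + b e₂` of the plane, with `e₁ = (1, 0)` and `e₂ = (1/2, √3/2)` -/
noncomputable def pt (v : ℤ × ℤ) : ℂ := ⟨v.1 + v.2 / 2, v.2 * (Real.sqrt 3 / 2)⟩

/-- the triangular lattice: lattice points are adjacent when at Euclidean distance one -/
def TL : SimpleGraph (ℤ × ℤ) where
  Adj u v := dist (pt u) (pt v) = 1
  symm := ⟨fun u v h => by rwa [dist_comm]⟩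
  loopless := ⟨fun u h => by simp at h⟩

/-- `(G, p)` has a `k`-colouring -/
def HasColouring {V : Type} (G : SimpleGraph V) (p : V → ℕ) (k : ℕ) : Prop :=
  ∃ C : V → Finset (Fin k), (∀ v, (C v).card = p v) ∧ ∀ u v, G.Adj u v → Disjoint (C u) (C v)

end Pool.Agent.P.MP_8fd115_co
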