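import Pool.Agent.P.MP_8fd115_co.TJoin

/-! General tools: joins with a free outer vertex, simple odd cycles, and the passage from
weighted stable sets to multicolourings. -/

set_option linter.unusedSectionVars false

namespace Pool.Agent.P.MP_8fd115_co

open Finset

section
variable {F Ed : Type*} [DecidableEq F] [DecidableEq Ed]

def cutF (Es : Finset Ed) (s t : Ed → F) (S : Finset F) : Finset Ed :=
  Es.filter fun e => ¬ (s e ∈ S ↔ t e ∈ S)

lemma sum_star (Es : Finset Ed) (s t : Ed → F) (S : Finset F) (h : Ed → ZMod 2) :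
    ∑ f ∈ S, ∑ e ∈ cutF Es s t {f}, h e = ∑ e ∈ cutF Es s t S, h e := by
  unfold cutF
  simp only [sum_filter]
  rw [sum_comm]
  refine sum_congr rfl fun e _ => ?_
  have : ∀ f, (if ¬ (s e ∈ ({f} : Finset F) ↔ t e ∈ ({f} : Finset F)) then h e else 0) =
      (if s e = f then h e else 0) + (if t e = f then h e else 0) := fun f => by
    by_cases h1 : s e = f <;> by_cases h2 : t e = f <;> simp [h1, h2, z2add]
  simp only [this, sum_add_distrib, sum_ite_eq]
  by_cases h1 : s e ∈ S <;> by_cases h2 : t e ∈ S <;> simp [h1, h2, z2add]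

theorem tjoin_fin (Es : Finset Ed) (Fs : Finset F) (s t : Ed → F) (x : Ed → ℝ) (hx : ∀ e, 0 ≤ x e)
    (c : Ed → ℕ) (hF : ∀ S ⊆ Fs, (S.card : ZMod 2) = 1 → 1 ≤ ∑ e ∈ cutF Es s t S, x e) :
    ∃ g : Ed → ZMod 2, (∀ f ∈ Fs, ∑ e ∈ cutF Es s t {f}, g e = 1) ∧
      ((∑ e ∈ Es, c e * (g e).val : ℕ) : ℝ) ≤ ∑ e ∈ Es, c e * x e := by
  let emb : F → Option Fs := fun f => if h : f ∈ Fs then some ⟨f, h⟩ else none
  let s' : Es → Option Fs := fun e => emb (s e)
  let t' : Es → Option Fs := fun e => emb (t e)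
  let τ : Option Fs → ZMod 2 := fun v => v.elim (Fs.card : ZMod 2) fun _ => 1
  have transfer : ∀ {M : Type} [AddCommMonoid M] (S' : Finset (Option Fs)) (S : Finset F),
      (∀ f, emb f ∈ S' ↔ f ∈ S) → ∀ h : Ed → M,
      ∑ e ∈ cut s' t' S', h e = ∑ e ∈ cutF Es s t S, h e := by
    intro M _ S' S hS h
    unfold cut cutF
    rw [sum_filter, sum_filter, ← sum_coe_sort Es]
    simp only [s', t', hS]
  have feas0 : ∀ S' : Finset (Option Fs), none ∉ S' → ∑ v ∈ S', τ v = 1 →
      1 ≤ ∑ e ∈ cut s' t' S', x e := by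
    intro S' hn hS
    have hmem : ∀ f, emb f ∈ S' ↔ f ∈ Fs.filter fun f => emb f ∈ S' := fun f => by
      by_cases h : f ∈ Fs
      · simp [h]
      · simp [h, emb, hn]
    rw [transfer S' _ hmem]
    refine hF _ (filter_subset _ _) ?_
    rw [← hS, card_eq_sum_ones]
    push_cast
    refine sum_bij (fun f _ => emb f) (fun f hf => (mem_filter.1 hf).2) ?_ ?_ ?_
    · intro a ha b hb h
      simpa [emb, (mem_filter.1 ha).1, (mem_filter.1 hb).1] using h
    · intro b hb
      cases b with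
      | none => exact absurd hb hn
      | some b => exact ⟨b.1, mem_filter.2 ⟨b.2, by simpa [emb] using hb⟩, by simp [emb]⟩
    · intro a ha
      simp [emb, τ, (mem_filter.1 ha).1]
  have feas : Feas s' t' τ (fun e => x e) := by
    intro S' hS
    by_cases hn : none ∈ S'
    · have h1 : cut s' t' S'ᶜ = cut s' t' S' := by
        ext e; simp only [mem_cut, mem_compl]; tauto
      rw [← h1]
      refine feas0 _ (by simpa using hn) ?_
      have h2 : ∑ v, τ v = 0 := by simp [τ, Fintype.sum_option, z2add]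
      rw [← sum_add_sum_compl S', hS] at h2
      revert h2; generalize ∑ v ∈ S'ᶜ, τ v = a; revert a; decide
    · exact feas0 _ hn hS
  obtain ⟨g, hg, hc⟩ := tjoin (fun e : Es => hx e) feas (fun e => c e)
  let g' : Ed → ZMod 2 := fun e => if h : e ∈ Es then g ⟨e, h⟩ else 0
  have hg' : ∀ e : Es, g' e = g e := fun e => by simp [g']
  refine ⟨g', fun f hf => ?_, ?_⟩
  · rw [← transfer {some ⟨f, hf⟩} {f}]
    · simp only [hg']
      rw [← sum_bd, sum_singleton, hg]; rfl
    · intro f'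
      by_cases h : f' ∈ Fs
      · simp [emb, h]
      · simp only [emb, h, dite_false, mem_singleton, reduceCtorEq, false_iff]
        rintro rfl; exact h hf
  · rw [← sum_coe_sort Es, ← sum_coe_sort Es (fun e => c e * x e)]
    simpa only [hg', cost] using hc

end

/-- a graph that is not bipartite has a simple odd cycle, written as a periodic sequence -/
theorem exists_odd_cycle {α : Type*} {H : SimpleGraph α} (h : ¬ H.Colorable 2) :
    ∃ (n : ℕ) (P : ℕ → α), n % 2 = 1 ∧ 3 ≤ n ∧ (∀ i, H.Adj (P i) (P (i + 1))) ∧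
      (∀ i, P (i + n) = P i) ∧ ∀ i j, i < j → j < i + n → P i ≠ P j := by
  classical
  have ex : ∃ n : ℕ, n % 2 = 1 ∧ ∃ p : ℕ → α, (∀ i < n, H.Adj (p i) (p (i + 1))) ∧ p n = p 0 := by
    rw [SimpleGraph.two_colorable_iff_forall_loop_even] at h
    push Not at h
    obtain ⟨u, w, hw⟩ := h
    exact ⟨w.length, Nat.odd_iff.1 (Nat.not_even_iff_odd.1 hw), w.getVert,
      fun i hi => w.adj_getVert_succ hi, by simp⟩
  obtain ⟨hodd, p, hp, hc⟩ := Nat.find_spec ex
  have hmin := fun m => Nat.find_min ex (m := m)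
  generalize Nat.find ex = n at hodd hp hc hmin
  have inj : ∀ i j, i < j → j < n → p i ≠ p j := by
    intro i j hij hj e
    by_cases hpar : (j - i) % 2 = 1
    · exact hmin (j - i) (by omega) ⟨hpar, fun k => p (i + k), fun k hk => hp _ (by omega), by
        simp only [add_zero]; rw [e]; congr 1; omega⟩
    · refine hmin (n - (j - i)) (by omega) ⟨by omega, fun k => if k ≤ i then p k else p (k + (j - i)),
        fun k hk => ?_, ?_⟩
      · by_cases h1 : k + 1 ≤ i
        · simp only [h1, show k ≤ i by omega, if_true]; exact hp _ (by omega)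
        · by_cases h2 : k ≤ i
          · have : k = i := by omega
            subst this
            simp only [h1, le_refl, if_true, if_false]
            rw [e, show k + 1 + (j - k) = j + 1 by omega]; exact hp _ hj
          · simp only [h1, h2, if_false]
            rw [add_right_comm]; exact hp _ (by omega)
      · simp only [show ¬ n - (j - i) ≤ i by omega, if_false, zero_le, if_true]
        rw [← hc]; congr 1; omega
  have h1 : n ≠ 1 := by
    rintro rfl
    have := hp 0 (by omega)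
    rw [zero_add, hc] at this
    exact H.irrefl this
  have hn : 0 < n := by omega
  refine ⟨n, fun i => p (i % n), hodd, by omega, fun i => ?_, fun i => by simp, fun i j hij hj => ?_⟩
  · have h2 := Nat.mod_lt i hn
    have h3 := hp _ h2
    by_cases h4 : i % n + 1 < n
    · have : (i + 1) % n = i % n + 1 := by
        rw [Nat.add_mod, Nat.mod_eq_of_lt (by omega : 1 < n), Nat.mod_eq_of_lt h4]
      simp only [this]; exact h3
    · have h5 : i % n + 1 = n := by omega
      have : (i + 1) % n = 0 := by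
        rw [Nat.add_mod, Nat.mod_eq_of_lt (by omega : 1 < n), h5, Nat.mod_self]
      simp only [this]; rw [← hc]; rwa [h5] at h3
  · have hne : i % n ≠ j % n := fun e => by
      have := (Nat.modEq_iff_dvd' hij.le).1 e
      have := Nat.le_of_dvd (by omega) this
      omega
    rcases lt_or_gt_of_ne hne with h | h
    · exact inj _ _ h (Nat.mod_lt _ hn)
    · exact (inj _ _ h (Nat.mod_lt _ hn)).symm

/-- a rational-valued additive functional on the reals that keeps finitely many signs -/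
theorem exists_rat_functional {ι : Type*} [Fintype ι] (r : ι → ℝ) :
    ∃ φ : ℝ →ₗ[ℚ] ℚ, ∀ i, 0 < r i → 0 < φ (r i) := by
  classical
  let b := Module.Basis.ofVectorSpace ℚ ℝ
  let O : Set (Module.Basis.ofVectorSpaceIndex ℚ ℝ → ℝ) :=
    ⋂ i ∈ {i | 0 < r i}, {y | 0 < ∑ k ∈ (b.repr (r i)).support, (b.repr (r i) k : ℝ) * y k}
  have hO : IsOpen O := (Set.toFinite _).isOpen_biInter fun i _ =>
    isOpen_lt continuous_const (by fun_prop)
  have hb : (fun k => b k) ∈ O := by
    simp only [O, Set.mem_iInter, Set.mem_ofPred_eq]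
    intro i hi
    have := b.linearCombination_repr (r i)
    rw [Finsupp.linearCombination_apply, Finsupp.sum] at this
    simp only [Rat.smul_def] at this
    rwa [this]
  have hd : DenseRange (Pi.map fun (_ : Module.Basis.ofVectorSpaceIndex ℚ ℝ) => ((↑) : ℚ → ℝ)) :=
    DenseRange.piMap fun _ => Rat.denseRange_cast
  obtain ⟨y, hy⟩ := hd.exists_mem_open hO ⟨_, hb⟩
  refine ⟨b.constr ℚ y, fun i hi => ?_⟩
  simp only [O, Set.mem_iInter, Set.mem_ofPred_eq] at hy
  have := hy i hi
  rw [Module.Basis.constr_apply, Finsupp.sum]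
  simp only [Pi.map_apply] at this
  exact_mod_cast this

lemma real_weights {α : Type*} [DecidableEq α] (U : Finset α) (ok : Finset α → Prop)
    (down : ∀ I J, J ⊆ I → ok I → ok J) (a b : ℕ)
    (h : ∀ w : α → ℕ, ∃ I ⊆ U, ok I ∧ a * ∑ v ∈ U, w v ≤ b * ∑ v ∈ I, w v) (w : α → ℝ) :
    ∃ I ⊆ U, ok I ∧ a * ∑ v ∈ U, w v ≤ b * ∑ v ∈ I, w v := by
  classical
  obtain ⟨I₀, h0, h0', -⟩ := h 0
  obtain ⟨I, hI, hmax⟩ := exists_max_image (U.powerset.filter ok) (fun I => ∑ v ∈ I, max (w v) 0)
    ⟨I₀, by simp [h0, h0']⟩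
  simp only [mem_filter, mem_powerset] at hI hmax
  have key : a * ∑ v ∈ U, max (w v) 0 ≤ b * ∑ v ∈ I, max (w v) 0 := by
    by_contra hcon
    push Not at hcon
    obtain ⟨n, hn⟩ := exists_nat_gt ((a * U.card : ℝ) /
      (a * ∑ v ∈ U, max (w v) 0 - b * ∑ v ∈ I, max (w v) 0))
    rw [div_lt_iff₀ (by linarith)] at hn
    obtain ⟨J, hJ, hJ', hle⟩ := h fun v => ⌊n * max (w v) 0⌋₊
    have h1 : (a : ℝ) * ∑ v ∈ U, (⌊n * max (w v) 0⌋₊ : ℝ) ≤ b * ∑ v ∈ J, (⌊n * max (w v) 0⌋₊ : ℝ) := by
      exact_mod_cast hle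
    have h2 : ∑ v ∈ J, (⌊n * max (w v) 0⌋₊ : ℝ) ≤ n * ∑ v ∈ I, max (w v) 0 := by
      refine le_trans ?_ (mul_le_mul_of_nonneg_left (hmax J ⟨hJ, hJ'⟩) (Nat.cast_nonneg n))
      rw [mul_sum]
      exact sum_le_sum fun v _ => Nat.floor_le (by positivity)
    have h3 : n * ∑ v ∈ U, max (w v) 0 - U.card ≤ ∑ v ∈ U, (⌊n * max (w v) 0⌋₊ : ℝ) := by
      rw [mul_sum, card_eq_sum_ones]
      push_cast
      rw [← sum_sub_distrib]
      exact sum_le_sum fun v _ => by linarith [Nat.lt_floor_add_one (n * max (w v) 0)]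
    have h4 := mul_le_mul_of_nonneg_left h2 (Nat.cast_nonneg b : (0 : ℝ) ≤ b)
    have h5 := mul_le_mul_of_nonneg_left h3 (Nat.cast_nonneg a : (0 : ℝ) ≤ a)
    nlinarith
  refine ⟨I.filter fun v => 0 ≤ w v, (filter_subset _ _).trans hI.1, down _ _ (filter_subset _ _) hI.2, ?_⟩
  have h1 : ∑ v ∈ I.filter (fun v => 0 ≤ w v), w v = ∑ v ∈ I, max (w v) 0 := by
    rw [sum_filter]
    exact sum_congr rfl fun v _ => by
      split_ifs with hv
      · exact (max_eq_left hv).symm
      · exact (max_eq_right (le_of_not_ge hv)).symm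
  have h2 : ∑ v ∈ U, w v ≤ ∑ v ∈ U, max (w v) 0 := sum_le_sum fun v _ => le_max_left _ _
  rw [h1]
  exact (mul_le_mul_of_nonneg_left h2 (Nat.cast_nonneg a)).trans key

/-- linear programming duality for multicolourings -/
theorem multi_of_weights {α : Type*} [DecidableEq α] (U : Finset α) (ok : Finset α → Prop)
    (down : ∀ I J, J ⊆ I → ok I → ok J) (a b : ℕ) (hb : 0 < b)
    (h : ∀ w : α → ℕ, ∃ I ⊆ U, ok I ∧ a * ∑ v ∈ U, w v ≤ b * ∑ v ∈ I, w v) :
    ∃ m, 0 < m ∧ ∃ col : Fin (b * m) → Finset α, (∀ j, ok (col j)) ∧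
      ∀ v ∈ U, (univ.filter fun j => v ∈ col j).card = a * m := by
  classical
  have hb' : (0 : ℝ) < b := by exact_mod_cast hb
  let χ : Finset α → U → ℝ := fun I v => if v.1 ∈ I then 1 else 0
  let S : Finset (U → ℝ) := (U.powerset.filter ok).image χ
  have hmem : (fun _ : U => (a : ℝ) / b) ∈ convexHull ℝ (S : Set (U → ℝ)) := by
    by_contra hnot
    obtain ⟨f, u, hf, hu⟩ := geometric_hahn_banach_closed_point (convex_convexHull ℝ _)
      (S.finite_toSet.isClosed_convexHull ℝ) hnot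
    let w : α → ℝ := fun v => if hv : v ∈ U then f (Pi.single ⟨v, hv⟩ 1) else 0
    have hw : ∀ y : U → ℝ, f y = ∑ v : U, y v * w v := fun y => by
      conv_lhs => rw [← univ_sum_single y]
      rw [map_sum]
      refine sum_congr rfl fun v _ => ?_
      have : (Pi.single v (y v) : U → ℝ) = y v • Pi.single v 1 := by
        rw [← Pi.single_smul, smul_eq_mul, mul_one]
      rw [this, map_smul]; simp [w]
    obtain ⟨I, hI, hok, hle⟩ := real_weights U ok down a b h w
    have h1 := hf (χ I) (subset_convexHull ℝ _ (by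
      simp only [S, coe_image]; exact ⟨I, by simp [hI, hok], rfl⟩))
    rw [hw] at h1 hu
    rw [← mul_sum, sum_coe_sort U w] at hu
    have h2 : ∑ v : U, χ I v * w v = ∑ v ∈ I, w v := by
      simp only [χ, ite_mul, one_mul, zero_mul]
      rw [sum_coe_sort U (fun v => if v ∈ I then w v else 0), sum_ite_mem, inter_eq_right.2 hI]
    rw [h2] at h1
    have h3 := (h1.trans hu)
    rw [div_mul_eq_mul_div, lt_div_iff₀ hb'] at h3
    linarith
  obtain ⟨ι, _, l, z, hl0, hl1, hz, hsum⟩ := mem_convexHull_iff_exists_fintype.1 hmem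
  simp only [S, coe_image, Set.mem_image, mem_coe, mem_filter, mem_powerset] at hz
  choose I hI hIz using hz
  obtain ⟨φ, hφ⟩ := exists_rat_functional (fun o : Option ι => o.elim 1 l)
  have p1 : 0 < φ 1 := hφ none one_pos
  have p2 : ∀ i, 0 ≤ φ (l i) := fun i => by
    rcases (hl0 i).eq_or_lt with h | h
    · rw [← h, map_zero]
    · exact (hφ (some i) h).le
  have p3 : ∑ i, φ (l i) = φ 1 := by rw [← map_sum, hl1]
  have p4 : ∀ v ∈ U, b * ∑ i ∈ univ.filter (fun i => v ∈ I i), φ (l i) = a * φ 1 := by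
    intro v hv
    have h1 := congrFun hsum ⟨v, hv⟩
    simp only [← hIz, χ, Finset.sum_apply, Pi.smul_apply, smul_eq_mul, mul_ite, mul_one, mul_zero] at h1
    rw [← sum_filter, eq_div_iff hb'.ne'] at h1
    have h2 : (b : ℚ) • ∑ i ∈ univ.filter (fun i => v ∈ I i), l i = (a : ℚ) • (1 : ℝ) := by
      simp only [Rat.smul_def]; push_cast; linarith
    have h3 := congrArg φ h2
    rwa [map_smul, map_smul, map_sum, smul_eq_mul, smul_eq_mul] at h3
  obtain ⟨K, hK, N, hN⟩ : ∃ K : ℕ, 0 < K ∧ ∃ N : ι → ℕ, ∀ i, (N i : ℚ) = K * φ (l i) := by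
    refine ⟨∏ i, (φ (l i)).den, prod_pos fun i _ => Rat.den_pos _,
      fun i => (∏ j ∈ univ.erase i, (φ (l j)).den) * (φ (l i)).num.toNat, fun i => ?_⟩
    rw [← mul_prod_erase _ _ (mem_univ i)]
    have h1 : (((φ (l i)).num.toNat : ℕ) : ℚ) = (φ (l i)).num := by
      rw [← Int.cast_natCast, Int.toNat_of_nonneg (Rat.num_nonneg.2 (p2 i))]
    rw [Nat.cast_mul, h1, Nat.cast_mul, ← Rat.mul_den_eq_num]
    ring
  have hm : ((∑ i, N i : ℕ) : ℚ) = K * φ 1 := by
    push_cast; simp only [hN]; rw [← mul_sum, p3]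
  have hK' : (0 : ℚ) < K := by exact_mod_cast hK
  let e : (Σ i, Fin (b * N i)) ≃ Fin (b * ∑ i, N i) := Fintype.equivFinOfCardEq (by simp [mul_sum])
  refine ⟨∑ i, N i, by exact_mod_cast (hm ▸ mul_pos hK' p1 : (0 : ℚ) < (∑ i, N i : ℕ)),
    fun j => I (e.symm j).1, fun j => (hI _).2, fun v hv => ?_⟩
  have h1 : (univ.filter fun j => v ∈ I (e.symm j).1).card =
      ((univ.filter fun i => v ∈ I i).sigma fun i => (univ : Finset (Fin (b * N i)))).card :=
    card_equiv e.symm (by simp)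
  rw [h1, card_sigma]
  simp only [card_univ, Fintype.card_fin]
  have h2 : ((∑ i ∈ univ.filter (fun i => v ∈ I i), b * N i : ℕ) : ℚ) = (a * ∑ i, N i : ℕ) := by
    rw [Nat.cast_mul, hm]
    push_cast; simp only [hN]
    rw [← mul_sum, ← mul_sum, mul_left_comm, p4 v hv]; ring
  exact_mod_cast h2

end Pool.Agent.P.MP_8fd115_co
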