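import Pool.Agent.P.MP_8fd115_co.Search

/-! The local rule that shares the budget of a vertex among its edges. -/

set_option linter.unusedSimpArgs false

namespace Pool.Agent.P.MP_8fd115_co

open Finset

def D : Fin 6 → ℤ × ℤ := ![(1, 0), (0, 1), (-1, 1), (-1, 0), (0, -1), (1, -1)]

def TF (U : Finset (ℤ × ℤ)) : Prop := ∀ v d, v ∈ U → v + D d ∈ U → v + D (d + 1) ∈ U → False

def lg (U : Finset (ℤ × ℤ)) (v : ℤ × ℤ) (d : Fin 6) : Bool := decide (v + D d + D d ∈ U)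
def arm (U : Finset (ℤ × ℤ)) (u : ℤ × ℤ) (d : Fin 6) : Bool := decide (u + D d ∈ U) && lg U u d
def Lf (U : Finset (ℤ × ℤ)) (v : ℤ × ℤ) (d : Fin 6) : Bool := arm U (v + D d) (d + 1)
def Rt (U : Finset (ℤ × ℤ)) (v : ℤ × ℤ) (d : Fin 6) : Bool := arm U (v + D d) (d + 5)

def prB (z lb lc Lb Rb Lc Rc : Bool) : Bool :=
  if lb then (if lc then false else z || Rc) else
    if lc then z || Lb else !Rb && !Lc && (z || Lb || Rc)

def pr (U : Finset (ℤ × ℤ)) (v : ℤ × ℤ) (e : Fin 6) : Bool :=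
  prB (lg U v e) (lg U v (e + 2)) (lg U v (e + 4)) (Lf U v (e + 2)) (Rt U v (e + 2))
    (Lf U v (e + 4)) (Rt U v (e + 4))

def aB (p q r : Bool) : ℕ := if p then 0 else if q && r then 6 else if q || r then 3 else 2

def a6 (U : Finset (ℤ × ℤ)) (v : ℤ × ℤ) (e : Fin 6) : ℕ :=
  if v + D (e + 2) ∈ U ∧ v + D (e + 4) ∈ U then aB (pr U v e) (pr U v (e + 2)) (pr U v (e + 4)) else 3

lemma aB_sum : ∀ p q r : Bool, aB p q r + aB q r p + aB r p q ≤ 6 := by decide

lemma budget {U : Finset (ℤ × ℤ)} (hT : TF U) {v : ℤ × ℤ} (hv : v ∈ U) :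
    ∑ d, (if v + D d ∈ U then a6 U v d else 0) ≤ 6 := by
  have t0 := hT v 0 hv
  have t1 := hT v 1 hv
  have t2 := hT v 2 hv
  have t3 := hT v 3 hv
  have t4 := hT v 4 hv
  have t5 := hT v 5 hv
  have s0 := aB_sum (pr U v 0) (pr U v 2) (pr U v 4)
  have s1 := aB_sum (pr U v 1) (pr U v 3) (pr U v 5)
  simp only [Fin.sum_univ_six, a6, Fin.reduceAdd] at *
  by_cases h0 : v + D 0 ∈ U <;> by_cases h1 : v + D 1 ∈ U <;> by_cases h2 : v + D 2 ∈ U <;>
    by_cases h3 : v + D 3 ∈ U <;> by_cases h4 : v + D 4 ∈ U <;> by_cases h5 : v + D 5 ∈ U <;>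
    simp_all

def tdF (e : ℕ) : Fin 6 := if e = 0 then 0 else if e = 1 then 1 else 5

lemma neg1 : (-1 : Fin 6) = 5 := by decide
lemma neg5 : (-5 : Fin 6) = 1 := by decide

lemma D_back : ∀ d : Fin 6, D d + D (d + 3) = 0 := by decide

lemma straight {U : Finset (ℤ × ℤ)} (hT : TF U) {u : ℤ × ℤ} {β : Fin 6} {d : ℕ} (hd : d < 3)
    (h1 : u ∈ U) (h2 : u + D (β + tdF d) ∈ U) : decide (u + D β ∈ U) = decide (d = 0) := by
  interval_cases d
  · simpa [tdF] using h2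
  · simpa using fun h => hT u β h1 h h2
  · have : β + tdF 2 + 1 = β := by simp [tdF, add_assoc]
    simpa using fun h => hT u (β + tdF 2) h1 h2 (by rwa [this])

set_option synthInstance.maxSize 4000 in
lemma core1 : ∀ b < 3, ∀ d < 3, ∀ e < 3, ∀ a0 zp zn le Le Re Lf Rf Lb Rb : Bool,
    (d = 1 → Lf = decide (e = 0) ∧ Rf = zn) → (d = 2 → Rf = decide (e = 0) ∧ Lf = zn) →
    (b = 1 → Rb = a0 ∧ Lb = zp) → (b = 2 → Lb = a0 ∧ Rb = zp) →
    3 * Fc (feat a0 b 1 zp) 1 d le e zn ≤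
      aB (prB (decide (d = 0)) (decide (b = 0)) le Lb Rb Le Re)
        (prB (decide (b = 0)) le (decide (d = 0)) Le Re Lf Rf)
        (prB le (decide (d = 0)) (decide (b = 0)) Lf Rf Lb Rb) +
      aB (prB (decide (b = 0)) le (decide (d = 0)) Le Re Lf Rf)
        (prB le (decide (d = 0)) (decide (b = 0)) Lf Rf Lb Rb)
        (prB (decide (d = 0)) (decide (b = 0)) le Lb Rb Le Re) := by
  decide +kernel

set_option synthInstance.maxSize 4000 in
lemma core2 : ∀ b < 3, ∀ d < 3, ∀ e < 3, ∀ a0 zp zn le Le Re Lf Rf Lb Rb : Bool,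
    (d = 1 → Lf = decide (e = 0) ∧ Rf = zn) → (d = 2 → Rf = decide (e = 0) ∧ Lf = zn) →
    (b = 1 → Rb = a0 ∧ Lb = zp) → (b = 2 → Lb = a0 ∧ Rb = zp) →
    3 * Fc (feat a0 b 2 zp) 2 d le e zn ≤
      aB (prB (decide (d = 0)) le (decide (b = 0)) Le Re Lb Rb)
        (prB le (decide (b = 0)) (decide (d = 0)) Lb Rb Lf Rf)
        (prB (decide (b = 0)) (decide (d = 0)) le Lf Rf Le Re) +
      aB (prB (decide (b = 0)) (decide (d = 0)) le Lf Rf Le Re)
        (prB (decide (d = 0)) le (decide (b = 0)) Le Re Lb Rb)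
        (prB le (decide (b = 0)) (decide (d = 0)) Lb Rb Lf Rf) := by
  decide +kernel

lemma Fc_le (f c d : ℕ) (z : Bool) (e : ℕ) (zn : Bool) : Fc f c d z e zn ≤ 2 := by
  have : ∀ b : Bool, b.toNat ≤ 2 := by decide
  unfold Fc
  simp only
  split_ifs <;> first | omega | exact this _

def mir (e : ℕ) : ℕ := if e = 0 then 0 else 3 - e

lemma tdF_mir {e : ℕ} (he : e < 3) : tdF e + tdF (mir e) = 0 ∧ mir e < 3 ∧ (mir e = 0 ↔ e = 0) := by
  interval_cases e <;> decide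

structure Path (U : Finset (ℤ × ℤ)) (P : ℕ → ℤ × ℤ) (δ : ℕ → Fin 6) (T : ℕ → ℕ) : Prop where
  mem : ∀ i, P i ∈ U
  step : ∀ i, P (i + 1) = P i + D (δ i)
  turn : ∀ i, δ (i + 1) = δ i + tdF (T (i + 1))
  lt : ∀ i, T i < 3

def Zb (U : Finset (ℤ × ℤ)) (P : ℕ → ℤ × ℤ) (δ : ℕ → Fin 6) (T : ℕ → ℕ) (i : ℕ) : Bool :=
  decide (T i ≠ 0) && arm U (P i) (δ i - tdF (T i) - tdF (T i))

variable {U : Finset (ℤ × ℤ)} {P : ℕ → ℤ × ℤ} {δ : ℕ → Fin 6} {T : ℕ → ℕ}

lemma Path.back (h : Path U P δ T) (i : ℕ) : P (i + 1) + D (δ i + 3) = P i := by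
  rw [h.step, add_assoc, D_back, add_zero]

lemma Path.lg_fwd (hT : TF U) (h : Path U P δ T) (i : ℕ) :
    lg U (P i) (δ i) = decide (T (i + 1) = 0) := by
  unfold lg
  rw [← h.step]
  exact straight hT (h.lt _) (h.mem _) (by rw [← h.turn, ← h.step]; exact h.mem _)

lemma Path.lg_back (hT : TF U) (h : Path U P δ T) (i : ℕ) :
    lg U (P (i + 2)) (δ (i + 1) + 3) = decide (T (i + 1) = 0) := by
  unfold lg
  rw [h.back]
  have h1 := tdF_mir (h.lt (i + 1))
  have := straight hT (β := δ (i + 1) + 3) h1.2.1 (h.mem (i + 1)) (by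
    rw [h.turn, add_right_comm _ _ 3, add_assoc _ (tdF _), h1.1, add_zero, h.back]; exact h.mem _)
  rw [this]; simp [h1.2.2]

lemma Path.fwd (hT : TF U) (h : Path U P δ T) (i : ℕ) :
    (T (i + 1) = 1 → Lf U (P i) (δ i) = decide (T (i + 2) = 0) ∧ Rt U (P i) (δ i) = Zb U P δ T (i + 1)) ∧
    (T (i + 1) = 2 → Rt U (P i) (δ i) = decide (T (i + 2) = 0) ∧ Lf U (P i) (δ i) = Zb U P δ T (i + 1)) := by
  have h1 : arm U (P (i + 1)) (δ (i + 1)) = decide (T (i + 2) = 0) := by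
    unfold arm
    rw [h.lg_fwd hT, ← h.step]; simp [h.mem]
  have h2 := h.turn i
  unfold Lf Rt Zb
  rw [← h.step]
  constructor <;> intro ht <;> rw [ht] at h2 ⊢ <;> rw [← h1, h2]
  · simp [tdF, sub_eq_add_neg, add_assoc, neg1, neg5]
  · simp [tdF, sub_eq_add_neg, add_assoc, neg1, neg5]

lemma Path.bwd (hT : TF U) (h : Path U P δ T) (i : ℕ) :
    (T (i + 2) = 1 → Rt U (P (i + 3)) (δ (i + 2) + 3) = decide (T (i + 1) = 0) ∧
      Lf U (P (i + 3)) (δ (i + 2) + 3) = Zb U P δ T (i + 2)) ∧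
    (T (i + 2) = 2 → Lf U (P (i + 3)) (δ (i + 2) + 3) = decide (T (i + 1) = 0) ∧
      Rt U (P (i + 3)) (δ (i + 2) + 3) = Zb U P δ T (i + 2)) := by
  have h1 : arm U (P (i + 2)) (δ (i + 1) + 3) = decide (T (i + 1) = 0) := by
    unfold arm
    rw [h.lg_back hT, h.back]; simp [h.mem]
  have h2 := h.turn (i + 1)
  unfold Lf Rt Zb
  rw [h.back]
  constructor <;> intro ht <;> rw [ht] at h2 ⊢ <;> rw [← h1, h2]
  · simp [tdF, sub_eq_add_neg, add_assoc, neg1, neg5]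
  · simp [tdF, sub_eq_add_neg, add_assoc, neg1, neg5]

lemma Path.vertex (hT : TF U) (h : Path U P δ T) (i : ℕ) :
    3 * Fc (feat (decide (T (i + 1) = 0)) (T (i + 2)) (T (i + 3)) (Zb U P δ T (i + 2))) (T (i + 3))
      (T (i + 4)) (Zb U P δ T (i + 3)) (T (i + 5)) (Zb U P δ T (i + 4)) ≤
    a6 U (P (i + 3)) (δ (i + 3)) + a6 U (P (i + 3)) (δ (i + 2) + 3) := by
  have hF := Fc_le (feat (decide (T (i + 1) = 0)) (T (i + 2)) (T (i + 3)) (Zb U P δ T (i + 2))) (T (i + 3))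
      (T (i + 4)) (Zb U P δ T (i + 3)) (T (i + 5)) (Zb U P δ T (i + 4))
  have hf := h.fwd hT (i + 3)
  have hb := h.bwd hT i
  have lf := h.lg_fwd hT (i + 3)
  have lb := h.lg_back hT (i + 1)
  have mf : P (i + 3) + D (δ (i + 3)) ∈ U := by rw [← h.step]; exact h.mem _
  have mb : P (i + 3) + D (δ (i + 2) + 3) ∈ U := by rw [h.back]; exact h.mem _
  have ht := h.turn (i + 2)
  have hc := h.lt (i + 3)
  have hz : Zb U P δ T (i + 3) = (decide (T (i + 3) ≠ 0) &&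
    arm U (P (i + 3)) (δ (i + 3) - tdF (T (i + 3)) - tdF (T (i + 3)))) := rfl
  simp only [show i + 2 + 1 = i + 3 from rfl, show i + 3 + 1 = i + 4 from rfl,
    show i + 3 + 2 = i + 5 from rfl, show i + 1 + 2 = i + 3 from rfl, show i + 1 + 1 = i + 2 from rfl]
    at hf lf lb ht
  rw [ht] at hf lf mf hz ⊢
  generalize δ (i + 2) = α at *
  generalize T (i + 3) = c at *
  generalize Zb U P δ T (i + 3) = z at *
  have hv := h.mem (i + 3)
  generalize P (i + 3) = v at *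
  interval_cases c
  · have e1 : ¬ v + D (α + 2) ∈ U := fun h' => hT v (α + 2) hv h' (by simpa [add_assoc] using mb)
    have e2 : ¬ v + D (α + 5) ∈ U := fun h' => hT v (α + 5) hv h' (by simpa [add_assoc, tdF] using mf)
    simp only [a6, tdF, add_assoc, Fin.reduceAdd, if_true, add_zero, e1, e2, false_and, if_false]
    omega
  · by_cases e1 : v + D (α + 5) ∈ U
    · have := core1 _ (h.lt (i + 2)) _ (h.lt (i + 4)) _ (h.lt (i + 5)) _ _ _ (lg U v (α + 5))
        (Lf U v (α + 5)) (Rt U v (α + 5)) _ _ _ _ hf.1 hf.2 hb.1 hb.2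
      have hz' : z = lg U v (α + 5) := by
        rw [hz]; simp [tdF, arm, sub_eq_add_neg, e1, add_assoc, neg1, neg5]
      simp only [tdF, if_true, one_ne_zero, if_false] at mf lf this
      rw [← lf, ← lb] at this
      simp only [a6, pr, tdF, add_assoc, Fin.reduceAdd, if_true, one_ne_zero, if_false, e1, mf, mb,
        and_self, hz']
      exact this
    · simp only [a6, tdF, add_assoc, Fin.reduceAdd, if_true, one_ne_zero, if_false, e1, false_and,
        and_false]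
      omega
  · by_cases e1 : v + D (α + 1) ∈ U
    · have := core2 _ (h.lt (i + 2)) _ (h.lt (i + 4)) _ (h.lt (i + 5)) _ _ _ (lg U v (α + 1))
        (Lf U v (α + 1)) (Rt U v (α + 1)) _ _ _ _ hf.1 hf.2 hb.1 hb.2
      have hz' : z = lg U v (α + 1) := by
        rw [hz]; simp [tdF, arm, sub_eq_add_neg, e1, add_assoc, neg1, neg5]
      have e5 : tdF 2 = 5 := rfl
      rw [e5] at mf lf this
      rw [← lf, ← lb] at this
      simp only [a6, pr, e5, add_assoc, Fin.reduceAdd, if_true, e1, mf, mb, and_self, hz']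
      exact this
    · have e5 : tdF 2 = 5 := rfl
      simp only [a6, e5, add_assoc, Fin.reduceAdd, if_false, e1, false_and, and_false]
      omega

end Pool.Agent.P.MP_8fd115_co
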