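import Pool.Agent.P.MP_8fd115_co.Tables

/-! Soundness of the exhaustive search. -/

namespace Pool.Agent.P.MP_8fd115_co

open Finset

def Dn (d : ℕ) : ℤ × ℤ := ((dxp d : ℤ) - 1, (dyp d : ℤ) - 1)

structure Run (n : ℕ) (q : ℕ → ℤ × ℤ) (dd m lab : ℕ → ℕ) : Prop where
  q0 : q 0 = (0, 0)
  qn : q n = (0, 0)
  step : ∀ i, q (i + 1) = q i + Dn (dd i)
  dlt : ∀ i, dd i < 6
  hdd : ∀ k, dd (k + 2) = (dd (k + 1) + tdk (lab k / 2)) % 6
  hm : ∀ k, m (k + 1) = nxt (m k) (lab k)
  mlt : ∀ k, m k < 90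
  llt : ∀ k, lab k < 6
  hz : ∀ k, m k / 2 % 3 = 0 → lab k % 2 = 0
  odd : n % 2 = 1
  three : 3 ≤ n
  dend : dd (n - 1) = 0
  lend : lab (n - 2) / 2 = 0
  cend : cst (m (n - 1)) (lab (n - 1)) = cst (m (n - 1)) 0
  inj : ∀ i j, i < j → j < n → q i ≠ q j
  tri : ∀ i j l d, d < 6 → q j = q i + Dn d → q l = q i + Dn ((d + 1) % 6) → False

lemma dxp_le (d : ℕ) (hd : d < 6) : dxp d ≤ 2 ∧ dyp d ≤ 2 := by
  interval_cases d <;> decide

lemma tb_iff (m i : ℕ) : tb m i = m.testBit i := by
  unfold tb Nat.testBit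
  have : Nat.land (Nat.shiftRight m i) 1 = 1 &&& (m >>> i) := Nat.land_comm _ _
  rw [this]
  have h2 : 1 &&& (m >>> i) ≤ 1 := Nat.and_le_left
  generalize 1 &&& (m >>> i) = r at h2
  interval_cases r <;> rfl

lemma tb_add {mask c i : ℕ} (h : tb (Nat.lor mask (Nat.shiftLeft 1 c)) i = true) :
    tb mask i = true ∨ i = c := by
  rw [tb_iff] at h ⊢
  have : Nat.lor mask (Nat.shiftLeft 1 c) = mask ||| 2 ^ c := by
    show mask ||| (1 <<< c) = _
    rw [Nat.one_shiftLeft]
  rw [this, Nat.testBit_or, Bool.or_eq_true, Nat.testBit_two_pow] at h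
  rcases h with h | h
  · exact Or.inl h
  · right; simpa [eq_comm] using h

variable {n : ℕ} {q : ℕ → ℤ × ℤ} {dd m lab : ℕ → ℕ}

lemma Run.bound (R : Run n q dd m lab) (i : ℕ) :
    -(i : ℤ) ≤ (q i).1 ∧ (q i).1 ≤ i ∧ -(i : ℤ) ≤ (q i).2 ∧ (q i).2 ≤ i := by
  induction i with
  | zero => simp [R.q0]
  | succ i ih =>
    have := dxp_le _ (R.dlt i)
    rw [R.step]
    simp only [Dn, Prod.fst_add, Prod.snd_add]
    push_cast
    omega

lemma Run.endc_le (R : Run n q dd m lab) :
    endc (m (n - 2)) ≤ ∑ i ∈ Ico (n - 2) n, cst (m i) (lab i) := by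
  obtain ⟨k, rfl⟩ : ∃ k, n = k + 2 := ⟨n - 2, by have := R.three; omega⟩
  have h1 := R.lend
  have h2 := R.cend
  have h3 := R.hm k
  simp only [Nat.add_sub_cancel, show k + 2 - 1 = k + 1 from rfl] at h1 h2 ⊢
  rw [sum_Ico_succ_top (by omega), sum_Ico_succ_top (by omega), Ico_self, sum_empty, zero_add, h2, h3]
  unfold endc
  have : lab k = 0 ∨ lab k = 1 := by omega
  rcases this with h | h <;> rw [h]
  · exact min_le_left _ _
  · exact min_le_right _ _

lemma Run.pot (R : Run n q dd m lab) (r : ℕ) : ∀ k col : ℕ, k + 2 + r = n →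
    (col : ℤ) = ((q (k + 2)).1 + 2 * (q (k + 2)).2) % 3 →
    (fld (ph (dd (k + 1)) (k % 2) col (m k)) 0 : ℤ) + 2 * (q (k + 2)).1 + (q (k + 2)).2
      ≤ 2 * (∑ i ∈ Ico k n, cst (m i) (lab i) : ℕ) + 32 ∧
    (fld (ph (dd (k + 1)) (k % 2) col (m k)) 1 : ℤ) - (q (k + 2)).1 + (q (k + 2)).2
      ≤ 2 * (∑ i ∈ Ico k n, cst (m i) (lab i) : ℕ) + 32 ∧
    (fld (ph (dd (k + 1)) (k % 2) col (m k)) 2 : ℤ) - (q (k + 2)).1 - 2 * (q (k + 2)).2
      ≤ 2 * (∑ i ∈ Ico k n, cst (m i) (lab i) : ℕ) + 32 ∧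
    (fld (ph (dd (k + 1)) (k % 2) col (m k)) 3 : ℤ)
      ≤ (∑ i ∈ Ico k n, cst (m i) (lab i) : ℕ) + 32 := by
  induction r with
  | zero =>
    intro k col hk hcol
    have h1 := R.endc_le
    have h2 := R.dend
    have h3 := R.odd
    have h4 := R.qn
    simp only [add_zero] at hk
    subst hk
    simp only [Nat.add_sub_cancel, show k + 2 - 1 = k + 1 from rfl] at h1 h2
    rw [h4] at hcol ⊢
    have hc : col = 0 := by simpa using hcol
    have hp : k % 2 = 1 := by omega
    have := allLt_spec pot_end _ (R.mlt k)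
    simp only [Bool.and_eq_true, Nat.ble_eq] at this
    rw [h2, hc, hp]
    simp only
    omega
  | succ r ih =>
    intro k col hk hcol
    have hcl : col < 3 := by omega
    have h1 := allLt_spec (allLt_spec (allLt_spec (allLt_spec (allLt_spec pot_all _ (R.dlt (k + 1)))
      (k % 2) (by omega)) col hcl) _ (R.mlt k)) _ (R.llt k)
    have hd : Nat.mod (Nat.add (dd (k + 1)) (tdk (Nat.div (lab k) 2))) 6 = dd (k + 2) := (R.hdd k).symm
    have hp : Nat.sub 1 (k % 2) = (k + 1) % 2 := by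
      show 1 - k % 2 = _
      omega
    rw [hd, hp, ← R.hm k] at h1
    have hs := R.step (k + 2)
    have h2 := ih (k + 1) (Nat.mod (Nat.add (Nat.add col (dxp (dd (k + 2)))) (Nat.mul 2 (dyp (dd (k + 2))))) 3)
      (by omega) (by
        rw [hs]
        show (((col + dxp (dd (k + 2)) + 2 * dyp (dd (k + 2))) % 3 : ℕ) : ℤ) = _
        simp only [Dn, Prod.fst_add, Prod.snd_add]
        omega)
    rw [sum_eq_sum_Ico_succ_bot (by omega : k < n)]
    rw [hs] at h2
    simp only [Dn, Prod.fst_add, Prod.snd_add] at h2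
    simp only [potOK, Bool.and_eq_true, Nat.ble_eq, Nat.add_eq, Nat.mul_eq,
      show k + 1 + 1 = k + 2 from rfl] at h1 h2
    omega

lemma Run.dfs (R : Run n q dd m lab) (fuel : ℕ) : ∀ k x y mask : ℕ, k + 2 < n → k + fuel ≤ 16 →
    (x : ℤ) = (q (k + 2)).1 + 20 → (y : ℤ) = (q (k + 2)).2 + 20 →
    (∀ a b : ℕ, a < 41 → tb mask (a + 41 * b) = true → ∃ i ≤ k + 2, q i = ((a : ℤ) - 20, (b : ℤ) - 20)) →
    chk fuel (dd (k + 1)) (k % 2) x y (m k) (∑ i ∈ range k, cst (m i) (lab i)) mask = true →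
    18 ≤ ∑ i ∈ range n, cst (m i) (lab i) := by
  induction fuel with
  | zero => intro k x y mask _ _ _ _ _ h; exact absurd h (by simp [chk])
  | succ fuel ih =>
    intro k x y mask hk hf hx hy hmask h
    have hD : stepD (chk fuel) (dd (k + 2)) (k % 2) x y (m k) (∑ i ∈ range k, cst (m i) (lab i)) mask
        (2 * (lab k / 2)) = true := by
      have h' : (stepD (chk fuel) (dd (k + 1)) (k % 2) x y (m k) (∑ i ∈ range k, cst (m i) (lab i)) mask 0 &&
        (stepD (chk fuel) ((dd (k + 1) + 1) % 6) (k % 2) x y (m k) (∑ i ∈ range k, cst (m i) (lab i)) mask 2 &&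
        stepD (chk fuel) ((dd (k + 1) + 5) % 6) (k % 2) x y (m k) (∑ i ∈ range k, cst (m i) (lab i)) mask 4))
          = true := h
      simp only [Bool.and_eq_true] at h'
      have h1 := R.llt k
      have h2 := R.dlt (k + 1)
      rw [R.hdd k]
      have : lab k / 2 = 0 ∨ lab k / 2 = 1 ∨ lab k / 2 = 2 := by omega
      rcases this with h3 | h3 | h3 <;> rw [h3]
      · rw [show tdk 0 = 0 from rfl, add_zero, Nat.mod_eq_of_lt h2]; exact h'.1
      · exact h'.2.1
      · exact h'.2.2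
    have hb := R.bound (k + 2)
    have hs := R.step (k + 2)
    have hdx := dxp_le _ (R.dlt (k + 2))
    have hp : Nat.sub 1 (k % 2) = (k + 1) % 2 := by
      show 1 - k % 2 = _
      omega
    unfold stepD at hD
    rw [hp] at hD
    have hx' : ((Nat.sub (Nat.add x (dxp (dd (k + 2)))) 1 : ℕ) : ℤ) = (q (k + 3)).1 + 20 := by
      rw [hs]; simp only [Dn, Prod.fst_add, Nat.add_eq, Nat.sub_eq]; push_cast at hb; omega
    have hy' : ((Nat.sub (Nat.add y (dyp (dd (k + 2)))) 1 : ℕ) : ℤ) = (q (k + 3)).2 + 20 := by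
      rw [hs]; simp only [Dn, Prod.snd_add, Nat.add_eq, Nat.sub_eq]; push_cast at hb; omega
    generalize Nat.sub (Nat.add x (dxp (dd (k + 2)))) 1 = x' at hD hx'
    generalize Nat.sub (Nat.add y (dyp (dd (k + 2)))) 1 = y' at hD hy'
    have hb' := R.bound (k + 3)
    push_cast at hb'
    have hl : lab k = 2 * (lab k / 2) ∨ lab k = 2 * (lab k / 2) + 1 := by omega
    unfold stepP at hD
    by_cases ho : x' = 20 ∧ y' = 20
    · have hq : q (k + 3) = (0, 0) := Prod.ext (by simp; omega) (by simp; omega)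
      have hn : n = k + 3 := by
        by_contra hne
        exact R.inj 0 (k + 3) (by omega) (by omega) (by rw [hq, R.q0])
      have h1 := R.endc_le
      have h2 := R.dend
      have h3 := R.odd
      subst hn
      simp only [show k + 3 - 2 = k + 1 from rfl, show k + 3 - 1 = k + 2 from rfl] at h1 h2
      have h4 : (k + 1) % 2 = 1 := by omega
      rw [ho.1, ho.2, h2, h4] at hD
      simp only [Nat.beq_refl, Bool.and_self, cond_true, Bool.not_true, Bool.false_or,
        Bool.and_eq_true, Nat.ble_eq] at hD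
      rw [← sum_range_add_sum_Ico _ (by omega : k + 1 ≤ k + 3), sum_range_succ]
      rw [R.hm k] at h1
      rcases hl with h5 | h5 <;> rw [← h5] at hD <;> omega
    · have hc : (Nat.beq x' 20 && Nat.beq y' 20) = false := by
        rw [Bool.eq_false_iff]; simpa [Nat.beq_eq] using ho
      rw [hc, cond_false] at hD
      have hn : k + 3 < n := by
        by_contra hne
        have : n = k + 3 := by omega
        have h4 := R.qn
        rw [this] at h4
        rw [h4] at hx' hy'
        simp at hx' hy'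
        omega
      simp only [Bool.or_eq_true, Bool.and_eq_true, Nat.add_eq, Nat.mul_eq] at hD
      rcases hD with h1 | h1 | h1
      · obtain ⟨i, hi, hq⟩ := hmask x' y' (by omega) h1
        exact absurd (hq.trans (Prod.ext (by simp; omega) (by simp; omega))) (R.inj i (k + 3) (by omega) hn)
      · exfalso
        have nb : ∀ d < 6, ∀ c : ℕ, (c : ℤ) = x' + 41 * y' + (Dn d).1 + 41 * (Dn d).2 → tb mask c = true →
            ∃ i, q i = q (k + 3) + Dn d := by
          intro d hd c hc ht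
          have h5 := dxp_le d hd
          simp only [Dn] at hc
          have : c = (x' + dxp d - 1) + 41 * (y' + dyp d - 1) := by omega
          rw [this] at ht
          obtain ⟨i, -, hq⟩ := hmask _ _ (by omega) ht
          exact ⟨i, hq.trans (Prod.ext (by simp [Dn]; omega) (by simp [Dn]; omega))⟩
        have n0 := nb 0 (by omega) (x' + 41 * y' + 1) (by simp [show Dn 0 = (1, 0) from rfl])
        have n1 := nb 1 (by omega) (x' + 41 * y' + 41) (by simp [show Dn 1 = (0, 1) from rfl])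
        have n2 := nb 2 (by omega) (x' + 41 * y' + 40) (by simp [show Dn 2 = (-1, 1) from rfl]; omega)
        have n3 := nb 3 (by omega) (x' + 41 * y' - 1) (by simp [show Dn 3 = (-1, 0) from rfl]; omega)
        have n4 := nb 4 (by omega) (x' + 41 * y' - 41) (by simp [show Dn 4 = (0, -1) from rfl]; omega)
        have n5 := nb 5 (by omega) (x' + 41 * y' - 40) (by simp [show Dn 5 = (1, -1) from rfl]; omega)
        have T : ∀ d < 6, (∃ i, q i = q (k + 3) + Dn d) → (∃ i, q i = q (k + 3) + Dn ((d + 1) % 6)) → False :=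
          fun d hd ⟨i, hi⟩ ⟨j, hj⟩ => R.tri _ i j d hd hi hj
        unfold Pool.Agent.P.MP_8fd115_co.tri at h1
        simp only [Bool.or_eq_true, Bool.and_eq_true, Nat.add_eq, Nat.sub_eq] at h1
        rcases h1 with ⟨a, b | b⟩ | ⟨a, b | b⟩ | ⟨a, b | b⟩
        · exact T 0 (by omega) (n0 a) (n1 b)
        · exact T 5 (by omega) (n5 b) (n0 a)
        · exact T 1 (by omega) (n1 b) (n2 a)
        · exact T 2 (by omega) (n2 a) (n3 b)
        · exact T 3 (by omega) (n3 b) (n4 a)
        · exact T 4 (by omega) (n4 a) (n5 b)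
      · have hZ : stepZ (chk fuel) (dd (k + 2)) ((k + 1) % 2) x' y' (m (k + 1))
            (∑ i ∈ range (k + 1), cst (m i) (lab i)) mask = true := by
          rw [R.hm k, sum_range_succ]
          rcases hl with h5 | h5
          · rw [← h5] at h1; exact h1.1
          · rw [← h5] at h1
            rcases h1.2 with h6 | h6
            · have := R.hz k (Nat.eq_of_beq_eq_true h6); omega
            · exact h6
        unfold stepZ at hZ
        rw [Bool.or_eq_true] at hZ
        rcases hZ with h2 | h2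
        · have h3 := R.pot (n - (k + 3)) (k + 1) (Nat.mod (Nat.add x' (Nat.mul 2 y')) 3) (by omega) (by
            show (((x' + 2 * y') % 3 : ℕ) : ℤ) = ((q (k + 3)).1 + 2 * (q (k + 3)).2) % 3
            omega)
          rw [← sum_range_add_sum_Ico _ (by omega : k + 1 ≤ n)]
          simp only [prune, Bool.or_eq_true, Nat.ble_eq, Nat.add_eq, Nat.mul_eq,
            show k + 1 + 1 = k + 2 from rfl, show k + 1 + 2 = k + 3 from rfl] at h2 h3
          omega
        · refine ih (k + 1) x' y' _ hn (by omega) hx' hy' ?_ h2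
          intro a b ha ht
          rcases tb_add ht with h3 | h3
          · obtain ⟨i, hi, hq⟩ := hmask a b ha h3
            exact ⟨i, by omega, hq⟩
          · simp only [Nat.add_eq, Nat.mul_eq] at h3
            exact ⟨k + 3, le_rfl, Prod.ext (by simp; omega) (by simp; omega)⟩

theorem Run.total (R : Run n q dd m lab) (e : ℕ) (he : e < 3) (hd0 : dd 0 = 0) (hd1 : dd 1 = tdk e)
    (hm0 : m 0 = 2 * e) : 18 ≤ ∑ i ∈ range n, cst (m i) (lab i) := by
  have q1 : q 1 = (1, 0) := by rw [R.step, R.q0, hd0]; rfl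
  have q2 : q 2 = (1, 0) + Dn (tdk e) := by rw [R.step, q1, hd1]
  have h3 := R.three
  have hmask : ∀ c x y : ℕ, x < 41 → c = x + 41 * y → q 2 = ((x : ℤ) - 20, (y : ℤ) - 20) →
      ∀ a b : ℕ, a < 41 → tb (Nat.lor (Nat.lor (Nat.lor 0 (Nat.shiftLeft 1 840)) (Nat.shiftLeft 1 841))
        (Nat.shiftLeft 1 c)) (a + 41 * b) = true → ∃ i ≤ 0 + 2, q i = ((a : ℤ) - 20, (b : ℤ) - 20) := by
    intro c x y hx hc hq a b ha ht
    rcases tb_add ht with h | h
    · rcases tb_add h with h | h
      · rcases tb_add h with h | h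
        · rw [tb_iff] at h; simp at h
        · exact ⟨0, by omega, R.q0.trans (Prod.ext (by simp; omega) (by simp; omega))⟩
      · exact ⟨1, by omega, q1.trans (Prod.ext (by simp; omega) (by simp; omega))⟩
    · exact ⟨2, by omega, hq.trans (Prod.ext (by simp; omega) (by simp; omega))⟩
  interval_cases e
  · refine R.dfs 16 0 22 20 _ (by omega) (by omega) (by rw [q2]; rfl) (by rw [q2]; rfl)
      (hmask 842 22 20 (by omega) rfl (by rw [q2]; rfl)) ?_
    rw [hd1, hm0]; exact chk0
  · refine R.dfs 16 0 21 21 _ (by omega) (by omega) (by rw [q2]; rfl) (by rw [q2]; rfl)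
      (hmask 882 21 21 (by omega) rfl (by rw [q2]; rfl)) ?_
    rw [hd1, hm0]; exact chk1
  · refine R.dfs 16 0 22 19 _ (by omega) (by omega) (by rw [q2]; rfl) (by rw [q2]; rfl)
      (hmask 801 22 19 (by omega) rfl (by rw [q2]; rfl)) ?_
    rw [hd1, hm0]; exact chk2

end Pool.Agent.P.MP_8fd115_co
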