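import Pool.Agent.P.MP_8fd115_co.Bridge

/-! Uniform multicolourings by shifting boxes, and the weighted bound. -/

namespace Pool.Agent.P.MP_8fd115_co

open Finset

def MC (U : Finset (ℤ × ℤ)) (p : ℤ × ℤ → ℕ) (k : ℕ) : Prop :=
  ∃ f : Fin k → Finset (ℤ × ℤ), (∀ j, Ind (f j)) ∧ ∀ v ∈ U, p v ≤ (univ.filter fun j => v ∈ f j).card

lemma MC.of_fintype {U : Finset (ℤ × ℤ)} {p : ℤ × ℤ → ℕ} {ι : Type} [Fintype ι] {k : ℕ}
    (hk : Fintype.card ι = k) (f : ι → Finset (ℤ × ℤ)) (h1 : ∀ j, Ind (f j))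
    (h2 : ∀ v ∈ U, p v ≤ (univ.filter fun j => v ∈ f j).card) : MC U p k := by
  let e : ι ≃ Fin k := Fintype.equivFinOfCardEq hk
  refine ⟨fun j => f (e.symm j), fun j => h1 _, fun v hv => (h2 v hv).trans (le_of_eq ?_)⟩
  exact card_equiv e (by simp)

lemma MC.add {U : Finset (ℤ × ℤ)} {p q r : ℤ × ℤ → ℕ} {k l : ℕ} (h1 : MC U p k) (h2 : MC U q l)
    (h : ∀ v ∈ U, r v ≤ p v + q v) : MC U r (k + l) := by
  obtain ⟨f, f1, f2⟩ := h1
  obtain ⟨g, g1, g2⟩ := h2
  refine MC.of_fintype (ι := Fin k ⊕ Fin l) (by simp) (Sum.elim f g) (by rintro (j | j) <;> simp [f1, g1])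
    fun v hv => ?_
  have a := f2 v hv
  have b := g2 v hv
  have c := h v hv
  rw [card_filter] at a b ⊢
  rw [Fintype.sum_sum_type]
  exact c.trans (Nat.add_le_add a b)

lemma MC.scale {U : Finset (ℤ × ℤ)} {b a : ℕ} (h : MC U (fun _ => b) a) (r : ℕ) :
    MC U (fun _ => r * b) (r * a) := by
  induction r with
  | zero => exact ⟨fun _ => ∅, fun _ => by simp [Ind], by simp⟩
  | succ r ih => rw [add_mul r 1 a, one_mul]; exact ih.add h fun v _ => by rw [add_mul, one_mul]

lemma uniform_family (𝒲 : Finset (Finset (ℤ × ℤ))) :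
    ∃ m, 0 < m ∧ ∀ W ∈ 𝒲, TF W → MC W (fun _ => 4 * m) (9 * m) := by
  induction 𝒲 using Finset.induction_on with
  | empty => exact ⟨1, one_pos, by simp⟩
  | insert W 𝒲 _ ih =>
    obtain ⟨m, hm, h⟩ := ih
    by_cases hT : TF W
    · obtain ⟨n, hn, f, f1, f2⟩ := frac hT
      refine ⟨n * m, Nat.mul_pos hn hm, fun W' hW' hT' => ?_⟩
      rcases mem_insert.1 hW' with rfl | hW'
      · have := MC.scale (U := W') ⟨f, f1, fun v hv => (f2 v hv).ge⟩ m
        rwa [show m * (4 * n) = 4 * (n * m) by ring, show m * (9 * n) = 9 * (n * m) by ring] at this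
      · have := (h W' hW' hT').scale n
        rwa [mul_left_comm n 4, mul_left_comm n 9] at this
    · refine ⟨m, hm, fun W' hW' hT' => ?_⟩
      rcases mem_insert.1 hW' with rfl | hW'
      · exact absurd hT' hT
      · exact h W' hW' hT'

lemma div_step {a δ L : ℤ} (hL : 0 < L) (h1 : -1 ≤ δ) (h2 : δ ≤ 1) (ha : a % L ≠ 0)
    (hb : (a + δ) % L ≠ 0) : (a + δ) / L = a / L := by
  have e1 := Int.emod_nonneg a hL.ne'
  have e2 := Int.emod_lt_of_pos a hL
  have e3 := Int.mul_ediv_add_emod a L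
  by_cases h : a % L + δ = L
  · exfalso; apply hb
    rw [show a + δ = L * (a / L + 1) by linarith]; simp
  · exact ((Int.ediv_emod_unique (r := a % L + δ) hL).2 ⟨by linarith, by omega, by omega⟩).1

lemma D_bound : ∀ d : Fin 6, -1 ≤ (D d).1 ∧ (D d).1 ≤ 1 ∧ -1 ≤ (D d).2 ∧ (D d).2 ≤ 1 := by decide

lemma shifts (x : ℤ) (L : ℕ) :
    L ≤ (univ.filter fun s : Fin (L + 1) => (x - s) % (L + 1 : ℕ) ≠ 0).card := by
  have h1 := card_filter_add_card_filter_not (s := univ)
    (fun s : Fin (L + 1) => (x - s) % (L + 1 : ℕ) = 0)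
  have h2 : (univ.filter fun s : Fin (L + 1) => (x - s) % (L + 1 : ℕ) = 0).card ≤ 1 := by
    rw [card_le_one]
    intro s hs t ht
    simp only [mem_filter, mem_univ, true_and] at hs ht
    have : ((L + 1 : ℕ) : ℤ) ∣ (s : ℤ) - t := by
      have := (Int.dvd_of_emod_eq_zero ht).sub (Int.dvd_of_emod_eq_zero hs)
      rwa [show x - t - (x - s) = (s : ℤ) - t by ring] at this
    have h3 := Int.eq_zero_of_abs_lt_dvd this (by rw [abs_lt]; constructor <;> omega)
    ext; omega
  simp only [card_univ, Fintype.card_fin] at h1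
  simp only [ne_eq]
  omega

theorem uniform (L : ℕ) : ∃ m, 0 < m ∧ ∀ U, TF U →
    MC U (fun _ => L * L * (4 * m)) ((L + 1) * (L + 1) * (9 * m)) := by
  classical
  obtain ⟨m, hm, h⟩ := uniform_family (Bx (L + 1)).powerset
  refine ⟨m, hm, fun U hT => ?_⟩
  have hL : (0 : ℤ) < (L + 1 : ℕ) := by omega
  let o : Fin (L + 1) × Fin (L + 1) → ℤ × ℤ → ℤ × ℤ := fun σ v =>
    (σ.1 + (L + 1 : ℕ) * ((v.1 - σ.1) / (L + 1 : ℕ)), σ.2 + (L + 1 : ℕ) * ((v.2 - σ.2) / (L + 1 : ℕ)))
  let W : ℤ × ℤ → Finset (ℤ × ℤ) := fun c => (Bx (L + 1)).filter fun r => c + r ∈ U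
  have hW : ∀ c, MC (W c) (fun _ => 4 * m) (9 * m) := fun c =>
    h _ (mem_powerset.2 (filter_subset _ _)) fun v d h1 h2 h3 =>
      hT (c + v) d (mem_filter.1 h1).2 (by rw [add_assoc]; exact (mem_filter.1 h2).2)
        (by rw [add_assoc]; exact (mem_filter.1 h3).2)
  choose f f1 f2 using hW
  let K : Fin (L + 1) × Fin (L + 1) → ℤ × ℤ → Prop := fun σ v =>
    (v.1 - σ.1) % (L + 1 : ℕ) ≠ 0 ∧ (v.2 - σ.2) % (L + 1 : ℕ) ≠ 0
  refine MC.of_fintype (ι := (Fin (L + 1) × Fin (L + 1)) × Fin (9 * m)) (by simp)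
    (fun c => U.filter fun v => K c.1 v ∧ v - o c.1 v ∈ f (o c.1 v) c.2) ?_ ?_
  · rintro ⟨σ, j⟩ v hv d hd
    simp only [mem_filter, K, Prod.fst_add, Prod.snd_add] at hv hd
    have hb := D_bound d
    have e : o σ (v + D d) = o σ v := by
      simp only [o, Prod.fst_add, Prod.snd_add]
      rw [add_sub_right_comm v.1, add_sub_right_comm v.2] at hd ⊢
      rw [div_step hL hb.1 hb.2.1 hv.2.1.1 hd.2.1.1, div_step hL hb.2.2.1 hb.2.2.2 hv.2.1.2 hd.2.1.2]
    rw [e, add_sub_right_comm v] at hd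
    exact f1 _ j _ hv.2.2 d hd.2.2
  · intro v hv
    rw [card_filter, Fintype.sum_prod_type]
    have h1 : L * L ≤ (univ.filter fun σ => K σ v).card := by
      have : (univ.filter fun σ => K σ v) =
          (univ.filter fun s : Fin (L + 1) => (v.1 - s) % (L + 1 : ℕ) ≠ 0) ×ˢ
          (univ.filter fun s : Fin (L + 1) => (v.2 - s) % (L + 1 : ℕ) ≠ 0) := by
        ext σ; simp [K]
      rw [this, card_product]
      exact Nat.mul_le_mul (shifts _ _) (shifts _ _)
    calc L * L * (4 * m) ≤ ∑ σ ∈ univ.filter fun σ => K σ v, 4 * m := by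
          rw [sum_const, smul_eq_mul]; exact Nat.mul_le_mul_right _ h1
      _ ≤ _ := by
          rw [sum_filter]
          refine sum_le_sum fun σ _ => ?_
          split_ifs with hK
          · have : v - o σ v ∈ W (o σ v) := by
              simp only [W, mem_filter, add_sub_cancel, hv, and_true, Bx, mem_product, mem_Icc, o,
                Prod.fst_sub, Prod.snd_sub]
              have a1 := Int.emod_nonneg (v.1 - σ.1) hL.ne'
              have a2 := Int.emod_lt_of_pos (v.1 - σ.1) hL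
              have a3 := Int.mul_ediv_add_emod (v.1 - σ.1) (L + 1 : ℕ)
              have b1 := Int.emod_nonneg (v.2 - σ.2) hL.ne'
              have b2 := Int.emod_lt_of_pos (v.2 - σ.2) hL
              have b3 := Int.mul_ediv_add_emod (v.2 - σ.2) (L + 1 : ℕ)
              refine ⟨⟨?_, ?_⟩, ?_, ?_⟩ <;> linarith
            refine (f2 _ _ this).trans (le_of_eq ?_)
            rw [card_filter]
            simp only [mem_filter, hv, hK, true_and]
          · exact Nat.zero_le _

lemma three_col (U : Finset (ℤ × ℤ)) (M : ℕ) : MC U (fun _ => M) (M * 3) := by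
  have : MC U (fun _ => 1) 3 := by
    refine ⟨fun j => U.filter fun v => (v.1 + 2 * v.2) % 3 = j, fun j v hv d hd => ?_, fun v hv => ?_⟩
    · simp only [mem_filter, Prod.fst_add, Prod.snd_add] at hv hd
      have : ∀ d : Fin 6, ((D d).1 + 2 * (D d).2) % 3 ≠ 0 := by decide
      have := this d
      omega
    · refine card_pos.2 ⟨⟨((v.1 + 2 * v.2) % 3).toNat, by omega⟩, ?_⟩
      simp only [mem_filter, mem_univ, true_and, hv]
      omega
  simpa using this.scale M

theorem layers {a b : ℕ} (hab : 2 * b ≤ a) (h : ∀ U, TF U → MC U (fun _ => b) a)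
    {U : Finset (ℤ × ℤ)} (hT : TF U) (k : ℕ) : ∀ p : ℤ × ℤ → ℕ, (∀ v ∈ U, p v ≤ k * (2 * b) + b) →
      (∀ v ∈ U, ∀ d, v + D d ∈ U → b ≤ p v → b ≤ p (v + D d) → p v + p (v + D d) ≤ k * (2 * b) + b) →
      MC U p (k * a + b * 3) := by
  classical
  induction k with
  | zero =>
    intro p h1 _
    obtain ⟨f, f1, f2⟩ := three_col U b
    rw [zero_mul, zero_add]
    exact ⟨f, f1, fun v hv => le_trans (by simpa using h1 v hv) (f2 v hv)⟩
  | succ k ih =>
    intro p h1 h2
    let S := U.filter fun v => b ≤ p v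
    let iso := S.filter fun v => ∀ d, v + D d ∉ S
    let q : ℤ × ℤ → ℕ := fun v => if v ∈ iso then 2 * b else if v ∈ S then b else 0
    have hq : MC U q a := by
      obtain ⟨f, f1, f2⟩ := h S fun v d a1 a2 a3 =>
        hT v d (mem_filter.1 a1).1 (mem_filter.1 a2).1 (mem_filter.1 a3).1
      refine ⟨fun j => (f j ∩ S) ∪ iso, fun j v hv d hd => ?_, fun v hv => ?_⟩
      · have hS : ∀ u ∈ (f j ∩ S) ∪ iso, u ∈ S := fun u hu => by
          rcases mem_union.1 hu with h | h
          · exact (mem_inter.1 h).2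
          · exact (mem_filter.1 h).1
        rcases mem_union.1 hv with a1 | a1
        · rcases mem_union.1 hd with a2 | a2
          · exact f1 j v (mem_inter.1 a1).1 d (mem_inter.1 a2).1
          · exact (mem_filter.1 a2).2 (d + 3) (by rw [D_back']; exact hS v hv)
        · exact (mem_filter.1 a1).2 d (hS _ hd)
      · simp only [q]
        split_ifs with a1 a2
        · simpa [a1] using hab
        · refine (f2 v a2).trans (card_le_card fun j hj => ?_)
          simp only [mem_filter, mem_univ, true_and] at hj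
          simp [hj, a2]
        · exact Nat.zero_le _
    have hr := ih (fun v => p v - q v) (fun v hv => by
        have a0 := h1 v hv
        rw [add_mul] at a0
        simp only [q]
        split_ifs with a1 a2
        · omega
        · simp only [iso, mem_filter, a2, true_and, not_forall, not_not] at a1
          obtain ⟨d, hd⟩ := a1
          have a3 := mem_filter.1 hd
          have := h2 v hv d a3.1 (mem_filter.1 a2).2 a3.2
          rw [add_mul] at this
          omega
        · have : ¬ b ≤ p v := fun h => a2 (mem_filter.2 ⟨hv, h⟩)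
          omega)
      (fun v hv d hd a1 a2 => by
        have s1 : v ∈ S := mem_filter.2 ⟨hv, by omega⟩
        have s2 : v + D d ∈ S := mem_filter.2 ⟨hd, by omega⟩
        have i1 : v ∉ iso := fun h => (mem_filter.1 h).2 d s2
        have i2 : v + D d ∉ iso := fun h => (mem_filter.1 h).2 (d + 3) (by rwa [D_back'])
        have := h2 v hv d hd (by omega) (by omega)
        rw [add_mul] at this
        simp only [q, i1, i2, s1, s2, if_true, if_false] at a1 a2 ⊢
        omega)
    have := hq.add hr (r := p) fun v _ => by omega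
    rwa [show a + (k * a + b * 3) = (k + 1) * a + b * 3 by ring] at this

theorem weighted_bound {ε : ℝ} (hε : 0 < ε) : ∃ C : ℕ, ∀ U, TF U → ∀ (p : ℤ × ℤ → ℕ) (ω : ℕ),
    (∀ v ∈ U, p v ≤ ω) → (∀ v ∈ U, ∀ d, v + D d ∈ U → p v + p (v + D d) ≤ ω) →
    ∃ k : ℕ, (k : ℝ) ≤ (9 / 8 + ε) * ω + C ∧ MC U p k := by
  obtain ⟨L, hL⟩ := exists_nat_gt (max 1 (4 / ε))
  have hL1 : (1 : ℝ) < L := (le_max_left _ _).trans_lt hL
  have hL2 : 4 < L * ε := (div_lt_iff₀ hε).1 ((le_max_right _ _).trans_lt hL)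
  obtain ⟨m, hm, h⟩ := uniform L
  have hL0 : 0 < L := by exact_mod_cast (zero_lt_one.trans hL1)
  have hab : 2 * (L * L * (4 * m)) ≤ (L + 1) * (L + 1) * (9 * m) := by nlinarith
  have hb : 0 < 2 * (L * L * (4 * m)) := by positivity
  have hrat : (((L + 1) * (L + 1) * (9 * m) : ℕ) : ℝ) ≤ (9 / 8 + ε) * (2 * (L * L * (4 * m)) : ℕ) := by
    push_cast
    have hm' : (0 : ℝ) < m := by exact_mod_cast hm
    have : ((L : ℝ) + 1) * (L + 1) * 9 ≤ (9 / 8 + ε) * (2 * (L * L * 4)) := by nlinarith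
    nlinarith
  generalize L * L * (4 * m) = b at *
  generalize (L + 1) * (L + 1) * (9 * m) = a at *
  refine ⟨a + b * 3, fun U hT p ω h1 h2 => ⟨(ω / (2 * b) + 1) * a + b * 3, ?_, ?_⟩⟩
  · have e1 : ((ω / (2 * b) : ℕ) : ℝ) * (2 * b : ℕ) ≤ ω := by exact_mod_cast Nat.div_mul_le_self _ _
    have e2 := mul_le_mul_of_nonneg_left hrat (Nat.cast_nonneg (ω / (2 * b)) : (0 : ℝ) ≤ _)
    have e3 := mul_le_mul_of_nonneg_left e1 (by positivity : (0 : ℝ) ≤ 9 / 8 + ε)
    push_cast at *
    nlinarith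
  · have e1 := Nat.lt_div_mul_add (a := ω) hb
    exact layers hab h hT _ p (fun v hv => by have := h1 v hv; nlinarith)
      (fun v hv d hd _ _ => by have := h2 v hv d hd; nlinarith)

end Pool.Agent.P.MP_8fd115_co
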